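import Pool.Agent.H35.Y.Cf
import Pool.Agent.H35.Y.Ker

/-! Checks of the coefficients. -/

set_option autoImplicit false
set_option maxRecDepth 100000

namespace Pool.Agent.H35.Y
open Pool.Agent.T2H33.K6

noncomputable section

def tj (j : ℕ) : ℕ := get tT j
/-- coefficient with offset 131072 -/
def co (j k l : ℕ) : ℕ := Nat.land (Nat.shiftRight (get CT (Nat.add j (Nat.mul 8 k))) (Nat.mul 32 l)) 4294967295
/-- the bits of the monomial -/
def BV (l : ℕ) : ℕ := asm 30 1023 10 (fun y => bt y (SG l))
/-- the constants of the rows -/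
def Kc (j k : ℕ) : ℕ := cnd (Nat.beq k 0) (Nat.add 211385 (Nat.mul 65536 j)) (Nat.div (K2 k) 2)

/-- the rows are given by the coefficients -/
def chkA (j : ℕ) : Bool := al 86 (fun k => Nat.beq
  (Nat.add (rw (tj j) k) (Nat.add (sm 86 (fun l => Nat.mul (Nat.mul 2 (co j k l)) (BV l))) (Nat.mul 11272192 O10)))
  (Nat.add (Nat.mul (Nat.add (Kc j k) (sm 86 (fun l => co j k l))) O10) (Nat.mul 262144 (sm 86 BV))))

def chkB (j : ℕ) : Bool := al 86 (fun k => al 86 (fun l => cnd (Nat.beq (co j k l) (co j l k)) (Nat.blt (co j k l) 262144) false))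

/-- independent rows -/
def np (j i : ℕ) : Bool := Nat.beq (bt i (get NT j)) 1
/-- coefficient of a relation with offset 64 -/
def wc (j i k : ℕ) : ℕ := Nat.land (Nat.shiftRight (get WT (Nat.add j (Nat.mul 8 i))) (Nat.mul 8 k)) 255

/-- the dependent rows; the coefficients of the relations vanish at the dependent rows -/
def chkC (j : ℕ) : Bool := al 86 (fun i => cnd (np j i) true (cnd (al 86 (fun k => cnd (np j k) true (Nat.beq (wc j i k) 64)))
  (al 86 (fun l => Nat.beq
    (Nat.add (Nat.mul (get wT j) (co j i l)) (Nat.add (Nat.mul 131072 (sm 86 (fun k => wc j i k))) (Nat.mul 64 (sm 86 (fun k => co j k l)))))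
    (Nat.add (sm 86 (fun k => Nat.mul (wc j i k) (co j k l))) (Nat.add (Nat.mul (get wT j) 131072) 721420288)))) false))

def vc (j k : ℕ) : ℕ := get VT (Nat.add j (Nat.mul 8 k))
/-- entry of the square root with offset 1048576 -/
def lc (j i k : ℕ) : ℕ := Nat.land (Nat.shiftRight (vc j k) (Nat.mul 64 i)) 18446744073709551615
def VS (j : ℕ) : ℕ := sm 86 (fun k => vc j k)
/-- the products of the row `i` with all the rows -/
def VP (j i : ℕ) : ℕ := sm 86 (fun k => Nat.mul (lc j i k) (vc j k))
def l64 (x i : ℕ) : ℕ := Nat.land (Nat.shiftRight x (Nat.mul 64 i)) 18446744073709551615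
def PPc (j i l : ℕ) : ℕ := Nat.add (Nat.mul (get DT j) (co j i l)) (Nat.mul 1048576 (Nat.add (l64 (VS j) i) (l64 (VS j) l)))
def NNc (j i l : ℕ) : ℕ := Nat.add (l64 (VP j i) l) (Nat.add (Nat.mul (get DT j) 131072) 94557999988736)
def adg (x y : ℕ) : ℕ := Nat.add (Nat.sub x y) (Nat.sub y x)
/-- the entry in the check of the dominance -/
def dN (j i l : ℕ) : ℕ := cnd (Nat.beq i l) 0 (cnd (np j l) (adg (PPc j i l) (NNc j i l)) 0)
/-- the row `i` of the rest is dominated by its diagonal entry -/
def chkD (j i : ℕ) : Bool := cnd (np j i) (Nat.ble (Nat.add (sm 86 (fun l => dN j i l)) (NNc j i i)) (PPc j i i)) true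
def chkV (j : ℕ) : Bool := al 86 (fun k => cnd (Nat.blt (vc j k) (Nat.pow 2 8192)) (al 128 (fun i => Nat.blt (lc j i k) 16777216)) false)

theorem cA0 : chkA 0 = true := by decide +kernel
theorem cA1 : chkA 1 = true := by decide +kernel
theorem cA2 : chkA 2 = true := by decide +kernel
theorem cA3 : chkA 3 = true := by decide +kernel
theorem cA4 : chkA 4 = true := by decide +kernel
theorem cA5 : chkA 5 = true := by decide +kernel
theorem cB : al 6 (fun j => st chkB j) = true := by decide +kernel
theorem cC : al 6 (fun j => st chkC j) = true := by decide +kernel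
theorem cV : al 6 (fun j => st chkV j) = true := by decide +kernel
theorem cD0 : al 86 (fun i => chkD 0 i) = true := by decide +kernel
theorem cD1 : al 86 (fun i => chkD 1 i) = true := by decide +kernel
theorem cD2 : al 86 (fun i => chkD 2 i) = true := by decide +kernel
theorem cD3 : al 86 (fun i => chkD 3 i) = true := by decide +kernel
theorem cD4 : al 86 (fun i => chkD 4 i) = true := by decide +kernel
theorem cD5 : al 86 (fun i => chkD 5 i) = true := by decide +kernel
theorem cK : al 6 (fun j => Nat.beq (sm 86 (Kc j)) (Nat.add 9844645 (Nat.mul 65536 j))) = true := by decide +kernel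
theorem cK2 : al 86 (fun k => cnd (Nat.beq k 0) (Nat.beq (SG k) 0) (Nat.beq (Nat.mod (K2 k) 2) 0)) = true := by decide +kernel
theorem cw : al 6 (fun j => cnd (Nat.blt 0 (get wT j)) (Nat.blt 0 (get DT j)) false) = true := by decide +kernel

end

end Pool.Agent.H35.Y
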