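import Mathlib

/-! The definitions used in the statement. -/

set_option autoImplicit false
open Finset

namespace Pool.Agent.H35.Y

/-- `H` is a `4`-graph: all its edges have four elements -/
def FourGraph {V : Type} (H : Finset (Finset V)) : Prop := ∀ e ∈ H, e.card = 4

/-- no five vertices have all their `4`-element subsets in `H` -/
def K5Free {V : Type} (H : Finset (Finset V)) : Prop :=
  ¬ ∃ S : Finset V, S.card = 5 ∧ S.powersetCard 4 ⊆ H

/-- the `4`-graph `X` with the six vertices `0, …, 5`, whose seven edges are the `4`-element sets which
contain `0` and do not contain both `4` and `5` -/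
def X : Finset (Finset (Fin 6)) :=
  (univ.powersetCard 4).filter fun T => 0 ∈ T ∧ ¬ (4 ∈ T ∧ 5 ∈ T)

/-- the vertices in `S` induce in `H` a copy of `X` -/
def InducesX {V : Type} (H : Finset (Finset V)) (S : Finset V) : Prop :=
  ∃ f : Fin 6 ↪ V, univ.map f = S ∧ ∀ T : Finset (Fin 6), T.card = 4 → (T.map f ∈ H ↔ T ∈ X)

open Classical in
/-- the number of induced copies of `X` in `H` -/
noncomputable def copies {V : Type} [Fintype V] (H : Finset (Finset V)) : ℕ :=
  ((univ : Finset (Finset V)).filter (InducesX H)).card

open Classical in
/-- the largest number of edges of a `4`-graph with `n` vertices that has no `K_5^4` and no induced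
copy of `X` -/
noncomputable def exX (n : ℕ) : ℕ :=
  ((univ : Finset (Finset (Finset (Fin n)))).filter
    fun H => FourGraph H ∧ K5Free H ∧ ∀ S, ¬ InducesX H S).sup card

end Pool.Agent.H35.Y
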