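import Pool.Agent.H35.Y.Ker

/-! Checks of the invariance of the rows. -/

set_option autoImplicit false
set_option maxRecDepth 100000

namespace Pool.Agent.H35.Y
open Pool.Agent.T2H33.K6

noncomputable section

/-- the exchange of the vertices 0 and 1 -/
def fs01 (x : ℕ) : ℕ := (sb 8 9 (sb 2 4 (sb 1 3 x)))
def ts01 (t : ℕ) : ℕ := sb 2 3 t
def rs01 (s x : ℕ) : ℕ := (swp s 10 8 9 (swp s 10 2 4 (swp s 10 1 3 x)))
def pi01 (k : ℕ) : ℕ := Nat.land (Nat.shiftRight 0x4e544d4c514b4a555352504f494846474544432726253f3e3d3324232120221f1e1d3c3231301c1b19181a1716154241403b3a3739383635342f2e2b2d2c2a292813141211100f0e0d0c070605040b0a090803020100 (Nat.mul 8 k)) 255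
def e01 (t : ℕ) : Bool := al 86 (fun k => Nat.beq (rs01 30 (rw t k)) (rw (ts01 t) (pi01 k)))
def g01 : Bool := al 86 (fun k => cnd (Nat.beq (rs01 1 (SG k)) (SG (pi01 k))) (cnd (Nat.beq (K2 (pi01 k)) (K2 k)) (cnd (Nat.blt (pi01 k) 86) (Nat.beq (pi01 (pi01 k)) k) false) false) false)
theorem ce01 : al 32 (fun t => st e01 t) = true := by decide +kernel
theorem cg01 : g01 = true := by decide +kernel
theorem cv01 : Nat.beq (swp 1 15 1 3 (swp 1 15 2 4 (swp 1 15 8 9 (swp 1 15 12 13 GV)))) GV = true := by decide +kernel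

/-- the exchange of the vertices 1 and 2 -/
def fs12 (x : ℕ) : ℕ := (sb 7 8 (sb 4 5 (sb 0 1 x)))
def ts12 (t : ℕ) : ℕ := sb 1 2 t
def rs12 (s x : ℕ) : ℕ := (swp s 10 7 8 (swp s 10 4 5 (swp s 10 0 1 x)))
def pi12 (k : ℕ) : ℕ := Nat.land (Nat.shiftRight 0x555453524241403f3e3d3b3a3c39383637353451504f4e4d4c494b4a48474546444333322f2e31302d2c2a2b2928272423262522211f201e1d1c1b14121113100f1a17191816150e0b0a0d0c09080706030205040100 (Nat.mul 8 k)) 255
def e12 (t : ℕ) : Bool := al 86 (fun k => Nat.beq (rs12 30 (rw t k)) (rw (ts12 t) (pi12 k)))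
def g12 : Bool := al 86 (fun k => cnd (Nat.beq (rs12 1 (SG k)) (SG (pi12 k))) (cnd (Nat.beq (K2 (pi12 k)) (K2 k)) (cnd (Nat.blt (pi12 k) 86) (Nat.beq (pi12 (pi12 k)) k) false) false) false)
theorem ce12 : al 32 (fun t => st e12 t) = true := by decide +kernel
theorem cg12 : g12 = true := by decide +kernel
theorem cv12 : Nat.beq (swp 1 15 0 1 (swp 1 15 4 5 (swp 1 15 7 8 (swp 1 15 11 12 GV)))) GV = true := by decide +kernel

/-- the exchange of the vertices 2 and 3 -/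
def fs23 (x : ℕ) : ℕ := (sb 6 7 (sb 3 4 (sb 1 2 x)))
def ts23 (t : ℕ) : ℕ := sb 0 1 t
def rs23 (s x : ℕ) : ℕ := (swp s 10 6 7 (swp s 10 3 4 (swp s 10 1 2 x)))
def pi23 (k : ℕ) : ℕ := Nat.land (Nat.shiftRight 0x5551504f5453524e4b4a4d4c49484746444543424140323130332f2e2d2c2b292a283c3f3e3d3b3a3938373536342726251c1b1a191816171524232221201e1f1d14131210110f0d0e0c0b090a080705060403010200 (Nat.mul 8 k)) 255
def e23 (t : ℕ) : Bool := al 86 (fun k => Nat.beq (rs23 30 (rw t k)) (rw (ts23 t) (pi23 k)))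
def g23 : Bool := al 86 (fun k => cnd (Nat.beq (rs23 1 (SG k)) (SG (pi23 k))) (cnd (Nat.beq (K2 (pi23 k)) (K2 k)) (cnd (Nat.blt (pi23 k) 86) (Nat.beq (pi23 (pi23 k)) k) false) false) false)
theorem ce23 : al 32 (fun t => st e23 t) = true := by decide +kernel
theorem cg23 : g23 = true := by decide +kernel
theorem cv23 : Nat.beq (swp 1 15 1 2 (swp 1 15 3 4 (swp 1 15 6 7 (swp 1 15 10 11 GV)))) GV = true := by decide +kernel

/-- the exchange of the vertices 3 and 4 -/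
def fs34 (x : ℕ) : ℕ := (sb 3 9 (sb 1 8 (sb 0 7 x)))
def ts34 (t : ℕ) : ℕ := sb 0 4 t
def rs34 (s x : ℕ) : ℕ := (swp s 10 3 9 (swp s 10 1 8 (swp s 10 0 7 x)))
def pi34 (k : ℕ) : ℕ := Nat.land (Nat.shiftRight 0x535455524850474d4e4c4b4645514f4a4944433941383e3f3d373b3642403c3a3534220e0d0c0b0a2d2c1a140908212620241f332725231e1d07062b19181305042a17121103023231302f2e29281c1b1615100f0100 (Nat.mul 8 k)) 255
def e34 (t : ℕ) : Bool := al 86 (fun k => Nat.beq (rs34 30 (rw t k)) (rw (ts34 t) (pi34 k)))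
def g34 : Bool := al 86 (fun k => cnd (Nat.beq (rs34 1 (SG k)) (SG (pi34 k))) (cnd (Nat.beq (K2 (pi34 k)) (K2 k)) (cnd (Nat.blt (pi34 k) 86) (Nat.beq (pi34 (pi34 k)) k) false) false) false)
theorem ce34 : al 32 (fun t => st e34 t) = true := by decide +kernel
theorem cg34 : g34 = true := by decide +kernel
theorem cv34 : Nat.beq (swp 1 15 0 7 (swp 1 15 1 8 (swp 1 15 3 9 (swp 1 15 10 14 GV)))) GV = true := by decide +kernel

theorem cSG : al 86 (fun k => Nat.blt (SG k) (Nat.pow 2 1024)) = true := by decide +kernel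
theorem cGV : Nat.blt GV (Nat.pow 2 32768) = true := by decide +kernel

end

end Pool.Agent.H35.Y
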