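import Pool.Agent.H35.Y.Sum
import Pool.Agent.H35.Y.Df

/-! The upper bound for `4`-graphs. -/

set_option autoImplicit false
open Finset

namespace Pool.Agent.H35.Y
open Pool.Agent.T2H33.K6

section
variable {V : Type} [DecidableEq V]

/-- indicator of a quadruple -/
def ind (H : Finset (Finset V)) (a b c d : V) : ℕ := if ({a, b, c, d} : Finset V) ∈ H then 1 else 0

theorem ind_sy (H : Finset (Finset V)) : Sy (ind H) where
  s1 := fun a b c d => by
    unfold ind
    rw [show ({b, a, c, d} : Finset V) = {a, b, c, d} from by ext; simp; tauto]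
  s2 := fun a b c d => by
    unfold ind
    rw [show ({a, c, b, d} : Finset V) = {a, b, c, d} from by ext; simp; tauto]
  s3 := fun a b c d => by
    unfold ind
    rw [show ({a, b, d, c} : Finset V) = {a, b, c, d} from by ext; simp; tauto]
  lt := fun a b c d => by
    unfold ind
    split_ifs <;> norm_num

theorem ind_one {H : Finset (Finset V)} {a b c d : V} (h : ind H a b c d = 1) :
    ({a, b, c, d} : Finset V) ∈ H := by
  unfold ind at h
  by_contra hc
  rw [if_neg hc] at h
  exact absurd h (by norm_num)

theorem ind_zero {H : Finset (Finset V)} {a b c d : V} (h : ind H a b c d = 0) :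
    ({a, b, c, d} : Finset V) ∉ H := by
  intro hc
  unfold ind at h
  rw [if_pos hc] at h
  exact absurd h (by norm_num)

theorem quad_eq {a b c d : V} (h : ({a, b, c, d} : Finset V).card = 4) :
    a ≠ b ∧ a ≠ c ∧ a ≠ d ∧ b ≠ c ∧ b ≠ d ∧ c ≠ d := by
  have key : ∀ p q r : V, ({p, q, r} : Finset V).card ≤ 3 := fun p q r => Finset.card_le_three
  refine ⟨?_, ?_, ?_, ?_, ?_, ?_⟩
  · rintro rfl
    rw [show ({a, a, c, d} : Finset V) = {a, c, d} from by ext; simp] at h
    have := key a c d; omega
  · rintro rfl
    rw [show ({a, b, a, d} : Finset V) = {a, b, d} from by ext; simp; tauto] at h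
    have := key a b d; omega
  · rintro rfl
    rw [show ({a, b, c, a} : Finset V) = {a, b, c} from by ext; simp; tauto] at h
    have := key a b c; omega
  · rintro rfl
    rw [show ({a, b, b, d} : Finset V) = {a, b, d} from by ext; simp] at h
    have := key a b d; omega
  · rintro rfl
    rw [show ({a, b, c, b} : Finset V) = {a, b, c} from by ext; simp; tauto] at h
    have := key a b c; omega
  · rintro rfl
    rw [show ({a, b, c, c} : Finset V) = {a, b, c} from by ext; simp] at h
    have := key a b c; omega

theorem sub5 {a b c d e : V} (hab : a ≠ b) (hac : a ≠ c) (had : a ≠ d) (hae : a ≠ e) (hbc : b ≠ c) (hbd : b ≠ d)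
    (hbe : b ≠ e) (hcd : c ≠ d) (hce : c ≠ e) (hde : d ≠ e) {T : Finset V} (hT : T ∈ ({a, b, c, d, e} : Finset V).powersetCard 4) :
    T = {a, b, c, d} ∨ T = {a, b, c, e} ∨ T = {a, b, d, e} ∨ T = {a, c, d, e} ∨ T = {b, c, d, e} := by
  obtain ⟨h1, h2⟩ := mem_powersetCard.mp hT
  have h5 : ({a, b, c, d, e} : Finset V).card = 5 := by
    rw [card_insert_of_notMem, card_insert_of_notMem, card_insert_of_notMem, card_insert_of_notMem,
      card_singleton]
    · simp [hde]
    · simp [hcd, hce]
    · simp [hbc, hbd, hbe]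
    · simp [hab, hac, had, hae]
  have hcard : (({a, b, c, d, e} : Finset V) \ T).card = 1 := by
    rw [card_sdiff_of_subset h1]; omega
  obtain ⟨v, hv⟩ := card_eq_one.mp hcard
  have hSeq : T = ({a, b, c, d, e} : Finset V).erase v := by
    rw [← sdiff_singleton_eq_erase, ← hv, Finset.sdiff_sdiff_eq_self h1]
  have hvT : v ∈ ({a, b, c, d, e} : Finset V) := by
    have : v ∈ ({a, b, c, d, e} : Finset V) \ T := by rw [hv]; exact mem_singleton_self v
    exact (mem_sdiff.mp this).1
  simp only [mem_insert, mem_singleton] at hvT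
  rcases hvT with rfl | rfl | rfl | rfl | rfl
  · right; right; right; right
    rw [hSeq]; ext w; simp only [mem_insert, mem_singleton, mem_erase]
    constructor
    · tauto
    · rintro (rfl | rfl | rfl | rfl)
      · exact ⟨hab.symm, by tauto⟩
      · exact ⟨hac.symm, by tauto⟩
      · exact ⟨had.symm, by tauto⟩
      · exact ⟨hae.symm, by tauto⟩
  · right; right; right; left
    rw [hSeq]; ext w; simp only [mem_insert, mem_singleton, mem_erase]
    constructor
    · tauto
    · rintro (rfl | rfl | rfl | rfl)
      · exact ⟨hab, by tauto⟩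
      · exact ⟨hbc.symm, by tauto⟩
      · exact ⟨hbd.symm, by tauto⟩
      · exact ⟨hbe.symm, by tauto⟩
  · right; right; left
    rw [hSeq]; ext w; simp only [mem_insert, mem_singleton, mem_erase]
    constructor
    · tauto
    · rintro (rfl | rfl | rfl | rfl)
      · exact ⟨hac, by tauto⟩
      · exact ⟨hbc, by tauto⟩
      · exact ⟨hcd.symm, by tauto⟩
      · exact ⟨hce.symm, by tauto⟩
  · right; left
    rw [hSeq]; ext w; simp only [mem_insert, mem_singleton, mem_erase]
    constructor
    · tauto
    · rintro (rfl | rfl | rfl | rfl)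
      · exact ⟨had, by tauto⟩
      · exact ⟨hbd, by tauto⟩
      · exact ⟨hcd, by tauto⟩
      · exact ⟨hde.symm, by tauto⟩
  · left
    rw [hSeq]; ext w; simp only [mem_insert, mem_singleton, mem_erase]
    constructor
    · tauto
    · rintro (rfl | rfl | rfl | rfl)
      · exact ⟨hae, by tauto⟩
      · exact ⟨hbe, by tauto⟩
      · exact ⟨hce, by tauto⟩
      · exact ⟨hde, by tauto⟩

theorem ind_nk {H : Finset (Finset V)} (h4 : FourGraph H) (hK : K5Free H) : NK (ind H) := by
  rintro a b c d e ⟨h1, h2, h3, h5, h6⟩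
  have k1 := ind_one h1
  have k2 := ind_one h2
  have k3 := ind_one h3
  have k5 := ind_one h5
  have k6 := ind_one h6
  obtain ⟨ab, ac, ad, bc, bd, cd'⟩ := quad_eq (h4 _ k1)
  obtain ⟨-, -, ae, -, be, ce⟩ := quad_eq (h4 _ k2)
  obtain ⟨-, -, -, -, -, de⟩ := quad_eq (h4 _ k3)
  have hT : ({a, b, c, d, e} : Finset V).card = 5 := by
    rw [card_insert_of_notMem, card_insert_of_notMem, card_insert_of_notMem, card_insert_of_notMem,
      card_singleton]
    · simp [de]
    · simp [cd', ce]
    · simp [bc, bd, be]
    · simp [ab, ac, ad, ae]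
  refine hK ⟨_, hT, fun T hT' => ?_⟩
  rcases sub5 ab ac ad ae bc bd be cd' ce de hT' with rfl | rfl | rfl | rfl | rfl
  · exact k1
  · exact k2
  · exact k3
  · exact k5
  · exact k6

theorem pow4 : (univ : Finset (Fin 6)).powersetCard 4 = {{0, 1, 2, 3}, {0, 1, 2, 4}, {0, 1, 2, 5}, {0, 1, 3, 4}, {0, 1, 3, 5},
    {0, 1, 4, 5}, {0, 2, 3, 4}, {0, 2, 3, 5}, {0, 2, 4, 5}, {0, 3, 4, 5}, {1, 2, 3, 4}, {1, 2, 3, 5}, {1, 2, 4, 5},
    {1, 3, 4, 5}, {2, 3, 4, 5}} := by decide

omit [DecidableEq V] in
theorem inj6 (v : Fin 6 → V) (h : Ds (v 0) (v 1) (v 2) (v 3) (v 4) (v 5)) : Function.Injective v := by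
  obtain ⟨h1, h2, h3, h4, h5, h6, h7, h8, h9, h10, h11, h12, h13, h14, h15⟩ := h
  intro i j hij
  fin_cases i <;> fin_cases j <;> first | rfl | exact absurd hij ‹_› | exact absurd hij.symm ‹_›

theorem kk_X {H : Finset (Finset V)} {a b c d e f : V} (hd : Ds a b c d e f) (hk : kk (ind H) a b c d e f = 24000) :
    InducesX H {a, b, c, d, e, f} := by
  have hb : ∀ k, k < 15 → kb (ind H) a b c d e f k = bt k 24000 := fun k hk' => by
    rw [← hk]
    exact (bt_pk (fun k _ => kb_lt (ind_sy H) a b c d e f k) hk').symm
  have b0 := ind_zero ((hb 0 (by norm_num)).trans (by decide : bt 0 24000 = 0))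
  have b1 := ind_zero ((hb 1 (by norm_num)).trans (by decide : bt 1 24000 = 0))
  have b2 := ind_zero ((hb 2 (by norm_num)).trans (by decide : bt 2 24000 = 0))
  have b3 := ind_zero ((hb 3 (by norm_num)).trans (by decide : bt 3 24000 = 0))
  have b4 := ind_zero ((hb 4 (by norm_num)).trans (by decide : bt 4 24000 = 0))
  have b5 := ind_zero ((hb 5 (by norm_num)).trans (by decide : bt 5 24000 = 0))
  have b6 := ind_one ((hb 6 (by norm_num)).trans (by decide : bt 6 24000 = 1))
  have b7 := ind_one ((hb 7 (by norm_num)).trans (by decide : bt 7 24000 = 1))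
  have b8 := ind_one ((hb 8 (by norm_num)).trans (by decide : bt 8 24000 = 1))
  have b9 := ind_zero ((hb 9 (by norm_num)).trans (by decide : bt 9 24000 = 0))
  have b10 := ind_one ((hb 10 (by norm_num)).trans (by decide : bt 10 24000 = 1))
  have b11 := ind_one ((hb 11 (by norm_num)).trans (by decide : bt 11 24000 = 1))
  have b12 := ind_one ((hb 12 (by norm_num)).trans (by decide : bt 12 24000 = 1))
  have b13 := ind_zero ((hb 13 (by norm_num)).trans (by decide : bt 13 24000 = 0))
  have b14 := ind_one ((hb 14 (by norm_num)).trans (by decide : bt 14 24000 = 1))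
  have hinj : Function.Injective ![a, b, c, d, e, f] := inj6 ![a, b, c, d, e, f] hd
  refine ⟨⟨![a, b, c, d, e, f], hinj⟩, ?_, fun T hT => ?_⟩
  · ext v
    simp only [mem_map, mem_univ, true_and, Function.Embedding.coeFn_mk, mem_insert, mem_singleton]
    constructor
    · rintro ⟨i, rfl⟩
      fin_cases i <;> simp
    · rintro (rfl | rfl | rfl | rfl | rfl | rfl)
      exacts [⟨0, rfl⟩, ⟨1, rfl⟩, ⟨2, rfl⟩, ⟨3, rfl⟩, ⟨4, rfl⟩, ⟨5, rfl⟩]
  · have hT' : T ∈ (univ : Finset (Fin 6)).powersetCard 4 := mem_powersetCard.mpr ⟨subset_univ _, hT⟩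
    rw [pow4] at hT'
    simp only [mem_insert, mem_singleton] at hT'
    rcases hT' with rfl | rfl | rfl | rfl | rfl | rfl | rfl | rfl | rfl | rfl | rfl | rfl | rfl | rfl | rfl
    · exact iff_of_true (by simp only [map_insert, map_singleton]; exact b14) (by decide)
    · exact iff_of_true (by simp only [map_insert, map_singleton]; exact b10) (by decide)
    · exact iff_of_true (by simp only [map_insert, map_singleton]; exact b6) (by decide)
    · exact iff_of_true (by simp only [map_insert, map_singleton]; exact b11) (by decide)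
    · exact iff_of_true (by simp only [map_insert, map_singleton]; exact b7) (by decide)
    · exact iff_of_false (by simp only [map_insert, map_singleton]; exact b0) (by decide)
    · exact iff_of_true (by simp only [map_insert, map_singleton]; exact b12) (by decide)
    · exact iff_of_true (by simp only [map_insert, map_singleton]; exact b8) (by decide)
    · exact iff_of_false (by simp only [map_insert, map_singleton]; exact b1) (by decide)
    · exact iff_of_false (by simp only [map_insert, map_singleton]; exact b2) (by decide)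
    · exact iff_of_false (by simp only [map_insert, map_singleton]; exact b13) (by decide)
    · exact iff_of_false (by simp only [map_insert, map_singleton]; exact b9) (by decide)
    · exact iff_of_false (by simp only [map_insert, map_singleton]; exact b3) (by decide)
    · exact iff_of_false (by simp only [map_insert, map_singleton]; exact b4) (by decide)
    · exact iff_of_false (by simp only [map_insert, map_singleton]; exact b5) (by decide)

/-- the property: if the six vertices are different then they induce a copy -/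
def PhX (H : Finset (Finset V)) (a b c d e f : V) : Prop := Ds a b c d e f → InducesX H {a, b, c, d, e, f}

theorem PhX_inv (H : Finset (Finset V)) : Inv (PhX H) where
  ab := fun a b c d e f h hd => by
    rw [show ({a, b, c, d, e, f} : Finset V) = {b, a, c, d, e, f} from by ext; simp; tauto]
    exact h (by unfold Ds at *; tauto)
  bc := fun a b c d e f h hd => by
    rw [show ({a, b, c, d, e, f} : Finset V) = {a, c, b, d, e, f} from by ext; simp; tauto]
    exact h (by unfold Ds at *; tauto)
  cd := fun a b c d e f h hd => by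
    rw [show ({a, b, c, d, e, f} : Finset V) = {a, b, d, c, e, f} from by ext; simp; tauto]
    exact h (by unfold Ds at *; tauto)
  de := fun a b c d e f h hd => by
    rw [show ({a, b, c, d, e, f} : Finset V) = {a, b, c, e, d, f} from by ext; simp; tauto]
    exact h (by unfold Ds at *; tauto)
  ef := fun a b c d e f h hd => by
    rw [show ({a, b, c, d, e, f} : Finset V) = {a, b, c, d, f, e} from by ext; simp; tauto]
    exact h (by unfold Ds at *; tauto)

theorem gP_H {H : Finset (Finset V)} (h4 : FourGraph H) (hK : K5Free H) {a b c d e f : V} (hd : Ds a b c d e f)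
    (hn : ¬ InducesX H {a, b, c, d, e, f}) : gP (kk (ind H) a b c d e f) = 3346707 :=
  gP_good (ind_sy H) (ind_nk h4 hK) (PhX_inv H) (fun _ _ _ _ _ _ hk hd => kk_X hd hk) fun h => hn (h hd)

end

section
variable {V : Type} [Fintype V] [DecidableEq V]

open Classical in
/-- ordered copies -/
noncomputable def oc (H : Finset (Finset V)) (a b c d e f : V) : ℕ :=
  if Ds a b c d e f ∧ InducesX H {a, b, c, d, e, f} then 1 else 0

theorem G7_low2 {H : Finset (Finset V)} (h4 : FourGraph H) (hK : K5Free H) :
    3346707 * Fintype.card V ^ 7 ≤ G7 (ind H) + (3346707 * (15 * Fintype.card V ^ 6) +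
      3346707 * S7 (fun a b c d e f _ : V => oc H a b c d e f)) := by
  have e : 3346707 * (15 * Fintype.card V ^ 6) = S7 (fun a b c d e f _ : V => 3346707 * qp a b c d e f) := by
    rw [← qp_sum]
    unfold S7
    rw [mul_sum]
  have e' : 3346707 * S7 (fun a b c d e f _ : V => oc H a b c d e f) = S7 (fun a b c d e f _ : V => 3346707 * oc H a b c d e f) := by
    unfold S7
    rw [mul_sum]
  rw [e, e', ← S7_const]
  unfold G7
  rw [← S7_add, ← S7_add]
  refine S7_mono fun a b c d e f z => ?_
  by_cases hd : Ds a b c d e f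
  · by_cases hx : InducesX H {a, b, c, d, e, f}
    · have : oc H a b c d e f = 1 := if_pos ⟨hd, hx⟩
      rw [this]
      exact le_trans (Nat.le_add_left _ _) (Nat.le_add_left _ _)
    · rw [gP_H h4 hK hd hx]
      exact Nat.le_add_right _ _
  · have := qp_pos hd
    calc 3346707 = 3346707 * 1 := rfl
      _ ≤ 3346707 * qp a b c d e f := Nat.mul_le_mul_left _ this
      _ ≤ _ := le_trans (Nat.le_add_right _ _) (Nat.le_add_left _ _)

/-- a set of six elements has at most 720 orderings -/
theorem order6 (S : Finset V) : (univ.filter fun v : Fin 6 → V => Function.Injective v ∧ univ.image v = S).card ≤ 720 := by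
  classical
  by_cases hS : S.card = 6
  · have h720 : (univ : Finset (Fin 6 ↪ {x // x ∈ S})).card = 720 := by
      rw [card_univ, Fintype.card_embedding_eq, Fintype.card_coe, hS, Fintype.card_fin]
      rfl
    rw [← h720]
    refine card_le_card_of_surjOn (fun g : Fin 6 ↪ {x // x ∈ S} => fun i => (g i : V)) ?_
    intro v hv
    rw [mem_coe, mem_filter] at hv
    obtain ⟨-, hi, him⟩ := hv
    have hm : ∀ i, v i ∈ S := fun i => him ▸ mem_image_of_mem v (mem_univ i)
    refine ⟨⟨fun i => ⟨v i, hm i⟩, fun i j hij => hi (Subtype.ext_iff.mp hij)⟩, mem_coe.mpr (mem_univ _), rfl⟩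
  · rw [filter_eq_empty_iff.mpr]
    · simp
    · rintro v - ⟨hi, him⟩
      apply hS
      rw [← him, card_image_of_injective _ hi, card_univ, Fintype.card_fin]

theorem oc_sum (H : Finset (Finset V)) : S7 (fun a b c d e f _ : V => oc H a b c d e f) ≤ Fintype.card V * (720 * copies H) := by
  classical
  have h1 : S7 (fun a b c d e f _ : V => oc H a b c d e f) = Fintype.card V *
      ∑ v : Fin 6 → V, oc H (v 0) (v 1) (v 2) (v 3) (v 4) (v 5) := by
    have : S7 (fun a b c d e f _ : V => oc H a b c d e f) = S7 (fun _ a b c d e f : V => oc H a b c d e f) :=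
      S7_perm ![1, 2, 3, 4, 5, 6, 0] ![6, 0, 1, 2, 3, 4, 5] (by decide) (by decide) (fun a b c d e f _ : V => oc H a b c d e f) |>.symm
    rw [this]
    unfold S7
    rw [sum_cons]
    show ∑ _a : V, ∑ w : Fin 6 → V, oc H (w 0) (w 1) (w 2) (w 3) (w 4) (w 5) = _
    rw [sum_const, card_univ, smul_eq_mul]
  rw [h1]
  refine Nat.mul_le_mul_left _ ?_
  have h2 : ∑ v : Fin 6 → V, oc H (v 0) (v 1) (v 2) (v 3) (v 4) (v 5) =
      (univ.filter fun v : Fin 6 → V => Function.Injective v ∧ InducesX H (univ.image v)).card := by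
    rw [card_filter]
    refine sum_congr rfl fun v _ => ?_
    have e1 : Ds (v 0) (v 1) (v 2) (v 3) (v 4) (v 5) ↔ Function.Injective v := by
      constructor
      · exact inj6 v
      · intro hi
        unfold Ds
        refine ⟨?_, ?_, ?_, ?_, ?_, ?_, ?_, ?_, ?_, ?_, ?_, ?_, ?_, ?_, ?_⟩ <;> exact hi.ne (by decide)
    have e2 : ({v 0, v 1, v 2, v 3, v 4, v 5} : Finset V) = univ.image v := by
      ext w
      simp only [mem_insert, mem_singleton, mem_image, mem_univ, true_and]
      constructor
      · rintro (rfl | rfl | rfl | rfl | rfl | rfl)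
        exacts [⟨0, rfl⟩, ⟨1, rfl⟩, ⟨2, rfl⟩, ⟨3, rfl⟩, ⟨4, rfl⟩, ⟨5, rfl⟩]
      · rintro ⟨i, rfl⟩
        fin_cases i <;> simp
    unfold oc
    rw [e2, e1]
    congr
  rw [h2]
  have h3 : (univ.filter fun v : Fin 6 → V => Function.Injective v ∧ InducesX H (univ.image v)) ⊆
      ((univ : Finset (Finset V)).filter (InducesX H)).biUnion fun S =>
        univ.filter fun v : Fin 6 → V => Function.Injective v ∧ univ.image v = S := by
    intro v hv
    obtain ⟨-, hi, hx⟩ := mem_filter.mp hv
    exact mem_biUnion.mpr ⟨univ.image v, mem_filter.mpr ⟨mem_univ _, hx⟩, mem_filter.mpr ⟨mem_univ _, hi, rfl⟩⟩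
  refine le_trans (card_le_card h3) (le_trans card_biUnion_le ?_)
  refine le_trans (sum_le_card_nsmul _ _ 720 fun S _ => order6 S) ?_
  rw [smul_eq_mul, mul_comm]
  exact le_of_eq rfl

end

end Pool.Agent.H35.Y
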