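import Pool.Agent.H35.Y.Ker

/-! Kernel checks, part 0. -/

set_option autoImplicit false
set_option maxRecDepth 100000
set_option linter.defProp false

namespace Pool.Agent.H35.Y

def c0 : chk 0 = true := by decide +kernel
def c87 : chk 87 = true := by decide +kernel
def c511 : chk 511 = true := by decide +kernel
def c1187 : chk 1187 = true := by decide +kernel
def c1271 : chk 1271 = true := by decide +kernel
def c1973 : chk 1973 = true := by decide +kernel
def c3453 : chk 3453 = true := by decide +kernel
def c3966 : chk 3966 = true := by decide +kernel

end Pool.Agent.H35.Y
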