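import Pool.Agent.H35.Y.Ker

/-! Kernel checks, part 1. -/

set_option autoImplicit false
set_option maxRecDepth 100000
set_option linter.defProp false

namespace Pool.Agent.H35.Y

def c1 : chk 1 = true := by decide +kernel
def c94 : chk 94 = true := by decide +kernel
def c1023 : chk 1023 = true := by decide +kernel
def c1191 : chk 1191 = true := by decide +kernel
def c1278 : chk 1278 = true := by decide +kernel
def c1975 : chk 1975 = true := by decide +kernel
def c3576 : chk 3576 = true := by decide +kernel
def c4094 : chk 4094 = true := by decide +kernel

end Pool.Agent.H35.Y
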