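import Pool.Agent.H35.Y.Ker

/-! Kernel checks, part 2. -/

set_option autoImplicit false
set_option maxRecDepth 100000
set_option linter.defProp false

namespace Pool.Agent.H35.Y

def c3 : chk 3 = true := by decide +kernel
def c95 : chk 95 = true := by decide +kernel
def c1100 : chk 1100 = true := by decide +kernel
def c1194 : chk 1194 = true := by decide +kernel
def c1456 : chk 1456 = true := by decide +kernel
def c1983 : chk 1983 = true := by decide +kernel
def c3577 : chk 3577 = true := by decide +kernel
def c7672 : chk 7672 = true := by decide +kernel

end Pool.Agent.H35.Y
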