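import Pool.Agent.H35.Y.Ker

/-! Kernel checks, part 7. -/

set_option autoImplicit false
set_option maxRecDepth 100000
set_option linter.defProp false

namespace Pool.Agent.H35.Y

def c15 : chk 15 = true := by decide +kernel
def c222 : chk 222 = true := by decide +kernel
def c1111 : chk 1111 = true := by decide +kernel
def c1199 : chk 1199 = true := by decide +kernel
def c1463 : chk 1463 = true := by decide +kernel
def c3310 : chk 3310 = true := by decide +kernel
def c3879 : chk 3879 = true := by decide +kernel
def c7934 : chk 7934 = true := by decide +kernel

end Pool.Agent.H35.Y
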