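import Pool.Agent.H35.Y.Ker

/-! Kernel checks, part 10. -/

set_option autoImplicit false
set_option maxRecDepth 100000
set_option linter.defProp false

namespace Pool.Agent.H35.Y

def c63 : chk 63 = true := by decide +kernel
def c236 : chk 236 = true := by decide +kernel
def c1141 : chk 1141 = true := by decide +kernel
def c1246 : chk 1246 = true := by decide +kernel
def c1468 : chk 1468 = true := by decide +kernel
def c3441 : chk 3441 = true := by decide +kernel
def c3903 : chk 3903 = true := by decide +kernel

end Pool.Agent.H35.Y
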