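import Pool.Agent.H35.Y.Ker

/-! Kernel checks, part 11. -/

set_option autoImplicit false
set_option maxRecDepth 100000
set_option linter.defProp false

namespace Pool.Agent.H35.Y

def c75 : chk 75 = true := by decide +kernel
def c237 : chk 237 = true := by decide +kernel
def c1143 : chk 1143 = true := by decide +kernel
def c1260 : chk 1260 = true := by decide +kernel
def c1469 : chk 1469 = true := by decide +kernel
def c3443 : chk 3443 = true := by decide +kernel
def c3948 : chk 3948 = true := by decide +kernel

end Pool.Agent.H35.Y
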