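import Pool.Agent.H35.Y.Ker

/-! Kernel checks, part 12. -/

set_option autoImplicit false
set_option maxRecDepth 100000
set_option linter.defProp false

namespace Pool.Agent.H35.Y

def c76 : chk 76 = true := by decide +kernel
def c239 : chk 239 = true := by decide +kernel
def c1182 : chk 1182 = true := by decide +kernel
def c1261 : chk 1261 = true := by decide +kernel
def c1471 : chk 1471 = true := by decide +kernel
def c3447 : chk 3447 = true := by decide +kernel
def c3949 : chk 3949 = true := by decide +kernel

end Pool.Agent.H35.Y
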