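import Pool.Agent.H35.Y.Ker

/-! Kernel checks, part 13. -/

set_option autoImplicit false
set_option maxRecDepth 100000
set_option linter.defProp false

namespace Pool.Agent.H35.Y

def c77 : chk 77 = true := by decide +kernel
def c254 : chk 254 = true := by decide +kernel
def c1183 : chk 1183 = true := by decide +kernel
def c1268 : chk 1268 = true := by decide +kernel
def c1532 : chk 1532 = true := by decide +kernel
def c3448 : chk 3448 = true := by decide +kernel
def c3950 : chk 3950 = true := by decide +kernel

end Pool.Agent.H35.Y
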