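import Pool.Agent.H35.Y.Ker

/-! Kernel checks, part 14. -/

set_option autoImplicit false
set_option maxRecDepth 100000
set_option linter.defProp false

namespace Pool.Agent.H35.Y

def c79 : chk 79 = true := by decide +kernel
def c255 : chk 255 = true := by decide +kernel
def c1184 : chk 1184 = true := by decide +kernel
def c1269 : chk 1269 = true := by decide +kernel
def c1533 : chk 1533 = true := by decide +kernel
def c3449 : chk 3449 = true := by decide +kernel
def c3958 : chk 3958 = true := by decide +kernel

end Pool.Agent.H35.Y
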