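import Pool.Agent.H35.Y.Ker

/-! Kernel checks, part 15. -/

set_option autoImplicit false
set_option maxRecDepth 100000
set_option linter.defProp false

namespace Pool.Agent.H35.Y

def c86 : chk 86 = true := by decide +kernel
def c507 : chk 507 = true := by decide +kernel
def c1185 : chk 1185 = true := by decide +kernel
def c1270 : chk 1270 = true := by decide +kernel
def c1972 : chk 1972 = true := by decide +kernel
def c3452 : chk 3452 = true := by decide +kernel
def c3959 : chk 3959 = true := by decide +kernel

end Pool.Agent.H35.Y
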