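import Pool.Agent.H35.Y.Df
import Pool.Graph.R_seed8.Helper27.E7.Low3

/-! The lower bound: the construction of Giraud. -/

set_option autoImplicit false
open Finset

namespace Pool.Agent.H35.Y
open Pool.Agent.Helper27.E7 Pool.Agent.Helper27.E7.Low

theorem G_four (k : ℕ) : FourGraph (G k) := fun _ he => (mem_G.mp he).1

theorem G_k5 (k : ℕ) : K5Free (G k) := by
  rintro ⟨S, hS, hsub⟩
  have h := (even_G k).2 S hS
  rw [inside5 (even_G k).1 S hS] at h
  have e : ∑ x ∈ S, (if S.erase x ∈ G k then 1 else 0) = 5 := by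
    rw [← hS, card_eq_sum_ones]
    refine sum_congr rfl fun x hx => if_pos (hsub ?_)
    rw [mem_powersetCard]
    exact ⟨erase_subset _ _, by rw [card_erase_of_mem hx, hS]⟩
  rw [e] at h
  exact absurd h (by decide)

theorem no_colouring : ∀ c : Fin 6 → Bool, ¬ ∀ T ∈ (univ : Finset (Fin 6)).powersetCard 4,
    (((T.filter fun i => c i = true).card = 1 ∨ (T.filter fun i => c i = true).card = 3) → T ∈ X) ∧
    (((T.filter fun i => c i = true).card = 0 ∨ (T.filter fun i => c i = true).card = 4) → T ∉ X) := by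
  decide +kernel

theorem G_X (k : ℕ) (S : Finset (Vk k)) : ¬ InducesX (G k) S := by
  rintro ⟨f, -, hf⟩
  refine no_colouring (fun i => (f i).1) fun T hT => ?_
  have hT4 : T.card = 4 := (mem_powersetCard.mp hT).2
  have hpa : (pa (T.map f)).card = (T.filter fun i => (f i).1 = true).card := by
    unfold pa
    rw [filter_map, card_map]
    rfl
  have hc : (T.map f).card = 4 := by rw [card_map, hT4]
  constructor
  · intro h
    rw [← hf T hT4, mem_G]
    refine ⟨hc, ?_⟩
    unfold ev
    rw [hpa]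
    rcases h with h | h
    · rw [h, if_neg (by decide)]; decide
    · rw [h, if_neg (by decide)]; decide
  · intro h
    rw [← hf T hT4, mem_G]
    rintro ⟨-, h2⟩
    unfold ev at h2
    rw [hpa] at h2
    rcases h with h | h
    · rw [h, if_neg (by decide)] at h2; exact absurd h2 (by decide)
    · rw [h, if_neg (by decide)] at h2; exact absurd h2 (by decide)

section
variable {V : Type} [Fintype V] [DecidableEq V]

theorem shrink1 (G : Finset (Finset V)) (h4 : FourGraph G) (S : Finset V) (m : ℕ) (hS : S.card = m + 1) :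
    ∃ v ∈ S, (G.filter (· ⊆ S)).card * (m + 1 - 4) ≤ (G.filter (· ⊆ S.erase v)).card * (m + 1) := by
  by_contra hc
  push Not at hc
  have hne : S.Nonempty := card_pos.mp (by omega)
  have h1 : ∑ v ∈ S, (G.filter (· ⊆ S.erase v)).card * (m + 1) < ∑ v ∈ S, (G.filter (· ⊆ S)).card * (m + 1 - 4) :=
    sum_lt_sum_of_nonempty hne hc
  rw [sum_const, hS, smul_eq_mul, ← sum_mul] at h1
  have h2 : ∑ v ∈ S, (G.filter (· ⊆ S.erase v)).card = (G.filter (· ⊆ S)).card * (m + 1 - 4) := by
    have h3 : ∀ v ∈ S, (G.filter (· ⊆ S.erase v)).card = ∑ e ∈ G.filter (· ⊆ S), if v ∉ e then 1 else 0 := by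
      intro v _
      rw [← card_filter, filter_filter]
      congr 1
      refine filter_congr fun e _ => ?_
      rw [subset_erase]
    rw [sum_congr rfl h3, sum_comm, ← smul_eq_mul, ← sum_const]
    refine sum_congr rfl fun e he => ?_
    obtain ⟨heG, heS⟩ := mem_filter.mp he
    rw [← card_filter, ← hS, ← h4 e heG, ← card_sdiff_of_subset heS]
    congr 1
    ext v
    rw [mem_filter, mem_sdiff]
  rw [h2] at h1
  have h3 : (G.filter (· ⊆ S)).card * (m + 1 - 4) * (m + 1) = (m + 1) * ((G.filter (· ⊆ S)).card * (m + 1 - 4)) := by ring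
  omega

theorem shrink (G : Finset (Finset V)) (h4 : FourGraph G) (j : ℕ) : ∀ m, m + j = Fintype.card V →
    ∃ S : Finset V, S.card = m ∧ G.card * m.choose 4 ≤ (G.filter (· ⊆ S)).card * (Fintype.card V).choose 4 := by
  induction j with
  | zero =>
    intro m hm
    refine ⟨univ, by rw [card_univ]; omega, ?_⟩
    have : G.filter (· ⊆ univ) = G := filter_true_of_mem fun e _ => subset_univ e
    rw [this, show m = Fintype.card V from by omega]
  | succ j ih =>
    intro m hm
    obtain ⟨S, hS, h⟩ := ih (m + 1) (by omega)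
    obtain ⟨v, hv, hv2⟩ := shrink1 G h4 S m hS
    refine ⟨S.erase v, by rw [card_erase_of_mem hv, hS]; rfl, ?_⟩
    have e := Nat.choose_mul_succ_eq m 4
    have key : (m + 1) * (G.card * m.choose 4) ≤ (m + 1) * ((G.filter (· ⊆ S.erase v)).card * (Fintype.card V).choose 4) := by
      calc (m + 1) * (G.card * m.choose 4) = G.card * (m.choose 4 * (m + 1)) := by ring
        _ = (G.card * (m + 1).choose 4) * (m + 1 - 4) := by rw [e]; ring
        _ ≤ ((G.filter (· ⊆ S)).card * (Fintype.card V).choose 4) * (m + 1 - 4) := Nat.mul_le_mul_right _ h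
        _ = ((G.filter (· ⊆ S)).card * (m + 1 - 4)) * (Fintype.card V).choose 4 := by ring
        _ ≤ ((G.filter (· ⊆ S.erase v)).card * (m + 1)) * (Fintype.card V).choose 4 := Nat.mul_le_mul_right _ hv2
        _ = _ := by ring
    exact Nat.le_of_mul_le_mul_left key (by omega)

/-- the 4-graph induced on a set of `n` vertices, as a 4-graph on `Fin n` -/
theorem pull (G : Finset (Finset V)) (h4 : FourGraph G) (hK : K5Free G) (hX : ∀ S, ¬ InducesX G S) (S : Finset V)
    (n : ℕ) (hS : S.card = n) : ∃ H : Finset (Finset (Fin n)), (FourGraph H ∧ K5Free H ∧ ∀ T, ¬ InducesX H T) ∧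
      H.card = (G.filter (· ⊆ S)).card := by
  classical
  let g : Fin n ↪ V := (S.equivFinOfCardEq hS).symm.toEmbedding.trans (Function.Embedding.subtype _)
  have hg : univ.map g = S := by
    ext v
    simp only [mem_map, mem_univ, true_and]
    constructor
    · rintro ⟨i, rfl⟩
      exact ((S.equivFinOfCardEq hS).symm i).2
    · intro hv
      refine ⟨S.equivFinOfCardEq hS ⟨v, hv⟩, ?_⟩
      show (((S.equivFinOfCardEq hS).symm (S.equivFinOfCardEq hS ⟨v, hv⟩) : {x // x ∈ S}) : V) = v
      rw [Equiv.symm_apply_apply]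
  refine ⟨univ.filter fun T => T.map g ∈ G, ⟨?_, ?_, ?_⟩, ?_⟩
  · intro T hT
    have := h4 _ (mem_filter.mp hT).2
    rwa [card_map] at this
  · rintro ⟨R, hR, hsub⟩
    refine hK ⟨R.map g, by rw [card_map, hR], fun e he => ?_⟩
    rw [powersetCard_map] at he
    obtain ⟨T, hT, rfl⟩ := mem_map.mp he
    exact (mem_filter.mp (hsub hT)).2
  · rintro T ⟨f, -, hf⟩
    refine hX _ ⟨f.trans g, rfl, fun R hR => ?_⟩
    rw [← hf R hR, mem_filter, map_map]
    simp
  · apply card_bij (fun T _ => T.map g)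
    · intro T hT
      refine mem_filter.mpr ⟨(mem_filter.mp hT).2, ?_⟩
      rw [← hg]
      exact map_subset_map.mpr (subset_univ _)
    · intro T _ T' _ h
      exact map_injective g h
    · intro e he
      obtain ⟨h1, h2⟩ := mem_filter.mp he
      rw [← hg, subset_map_iff] at h2
      obtain ⟨u, -, hu⟩ := h2
      exact ⟨u, mem_filter.mpr ⟨mem_univ _, hu ▸ h1⟩, hu.symm⟩

end

theorem choose4 (n : ℕ) : 24 * ((n.choose 4 : ℕ) : ℤ) = n * (n - 1) * (n - 2) * (n - 3) := by
  have h := Nat.descFactorial_eq_factorial_mul_choose n 4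
  have h2 : (n.descFactorial 4 : ℤ) = n * (n - 1) * (n - 2) * (n - 3) := by
    rcases n with _ | _ | _ | n
    · simp [Nat.descFactorial]
    · simp [Nat.descFactorial]
    · simp [Nat.descFactorial]
    · simp only [Nat.descFactorial]
      push_cast
      ring
  rw [← h2, h]
  push_cast
  norm_num [Nat.factorial]

theorem G_big (k : ℕ) (hk : 1 ≤ k) : 11 * (Fintype.card (Vk k)).choose 4 ≤ 16 * (G k).card := by
  have hM : Fintype.card (Vk k) = 2 * 2 ^ k := by rw [Fintype.card_prod, Fintype.card_bool, card_W]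
  have h1 := choose4 (2 * 2 ^ k)
  have h2 := cardG (k := k)
  have h3 : (2 : ℤ) ≤ 2 ^ k := by
    calc (2 : ℤ) = 2 ^ 1 := by norm_num
      _ ≤ 2 ^ k := pow_le_pow_right₀ (by norm_num) hk
  rw [hM]
  push_cast at h1
  have key : 24 * (11 * (((2 * 2 ^ k).choose 4 : ℕ) : ℤ)) ≤ 24 * (16 * ((G k).card : ℤ)) := by
    have e1 : 24 * (11 * (((2 * 2 ^ k).choose 4 : ℕ) : ℤ)) = 11 * (2 * (2 : ℤ) ^ k * (2 * (2 : ℤ) ^ k - 1) * (2 * (2 : ℤ) ^ k - 2) * (2 * (2 : ℤ) ^ k - 3)) := by
      rw [← h1]; ring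
    have e2 : 24 * (16 * ((G k).card : ℤ)) = 16 * (((2 : ℤ) ^ k) ^ 2 * ((2 : ℤ) ^ k - 1) * (11 * (2 : ℤ) ^ k - 16)) := by
      rw [← h2]; ring
    rw [e1, e2]
    generalize (2 : ℤ) ^ k = N at h3
    have e3 : 16 * (N ^ 2 * (N - 1) * (11 * N - 16)) - 11 * (2 * N * (2 * N - 1) * (2 * N - 2) * (2 * N - 3)) =
        4 * (N * ((N - 1) * (24 * N - 33))) := by ring
    have e4 : 0 ≤ N * ((N - 1) * (24 * N - 33)) :=
      mul_nonneg (by linarith) (mul_nonneg (by linarith) (by linarith))
    linarith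
  have := le_of_mul_le_mul_left key (by norm_num)
  exact_mod_cast this

/-- **the lower bound** -/
theorem lower (n : ℕ) : 11 * n.choose 4 ≤ 16 * exX n := by
  classical
  obtain ⟨k, hk1, hk2⟩ : ∃ k, 1 ≤ k ∧ n ≤ Fintype.card (Vk k) := by
    refine ⟨n + 1, by omega, ?_⟩
    rw [Fintype.card_prod, Fintype.card_bool, card_W]
    have : n + 1 < 2 ^ (n + 1) := Nat.lt_two_pow_self
    omega
  obtain ⟨S, hS, h⟩ := shrink (G k) (G_four k) (Fintype.card (Vk k) - n) n (by omega)
  obtain ⟨H, hH, hc⟩ := pull (G k) (G_four k) (G_k5 k) (G_X k) S n hS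
  have h1 : H.card ≤ exX n := by
    unfold exX
    refine le_sup (f := card) (mem_filter.mpr ⟨mem_univ _, ?_⟩)
    exact hH
  have h2 := G_big k hk1
  rw [← hc] at h
  have hpos : 0 < (Fintype.card (Vk k)).choose 4 := by
    refine Nat.choose_pos ?_
    rw [Fintype.card_prod, Fintype.card_bool, card_W]
    have : 2 ^ 1 ≤ 2 ^ k := Nat.pow_le_pow_right (by norm_num) hk1
    omega
  have key : (Fintype.card (Vk k)).choose 4 * (11 * n.choose 4) ≤ (Fintype.card (Vk k)).choose 4 * (16 * H.card) := by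
    calc (Fintype.card (Vk k)).choose 4 * (11 * n.choose 4) = (11 * (Fintype.card (Vk k)).choose 4) * n.choose 4 := by ring
      _ ≤ (16 * (G k).card) * n.choose 4 := Nat.mul_le_mul_right _ h2
      _ = 16 * ((G k).card * n.choose 4) := by ring
      _ ≤ 16 * (H.card * (Fintype.card (Vk k)).choose 4) := Nat.mul_le_mul_left _ h
      _ = _ := by ring
  have := Nat.le_of_mul_le_mul_left key hpos
  omega

end Pool.Agent.H35.Y
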