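import Pool.Agent.H35.Y.Bf
import Pool.Agent.H35.Y.Str

/-! Vectors of the values of functions of seven vertices. -/

set_option autoImplicit false
set_option maxRecDepth 100000
set_option exponentiation.threshold 40000
open Finset

namespace Pool.Agent.H35.Y
open Pool.Agent.T2H33.K6

noncomputable section

variable {V : Type} {E : V → V → V → V → ℕ}

attribute [local irreducible] FS rw K2 SG O10 enc fld

/-- scalar product of two flags with five labelled vertices -/
def pv (m l : ℕ) : ℕ := FS 1 (m % 1024) (fun k => fld 30 (rw (m / 1024) k) (l % 1024))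
/-- the entry for the good structures on six vertices -/
def gP (l : ℕ) : ℕ := fld 30 (rw (l / 1024) 86) (l % 1024)
/-- the term of the fifth and sixth vertices -/
def TT (E : V → V → V → V → ℕ) (a b c d e f z : V) : ℕ := pv (kk E a b c d z f) (kk E a b c d z e)
/-- the term of the sixth and seventh vertices -/
def YY (E : V → V → V → V → ℕ) (a b c d e f z : V) : ℕ := pv (kk E a b c d e f) (kk E a b c d e z) + gP (kk E a b c d e z)

/-- `X` is the vector of the values of `φ` for the structures with code `m`; the bit `k` of the index is the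
bit `pos k` of the link -/
def Rc (E : V → V → V → V → ℕ) (n : ℕ) (pos : ℕ → ℕ) (B X m : ℕ) (φ : V → V → V → V → V → V → V → ℕ) : Prop :=
  ∃ F : ℕ → ℕ, X = enc 30 n F ∧ (∀ i < 2 ^ n, F i ≤ B) ∧ ∀ a b c d e f z, kk E a b c d e f = m →
    F (pk n (fun k => lb E a b c d e f z (pos k))) = φ a b c d e f z

theorem sp_sp {p q : ℕ} (h : p < q) (k : ℕ) : sp p q (sp p q k) = k := by
  unfold sp
  by_cases h1 : k = p
  · subst h1
    rw [if_pos rfl, if_neg (by omega), if_pos rfl]
  · rw [if_neg h1]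
    by_cases h2 : k = q
    · subst h2
      rw [if_pos rfl, if_pos rfl]
    · rw [if_neg h2, if_neg h1, if_neg h2]

theorem Rc.swp (hE : Sy E) {n p q B X m : ℕ} {pos : ℕ → ℕ} {φ : V → V → V → V → V → V → V → ℕ} (hpq : p < q) (hq : q < n)
    (hB : B < 2 ^ 30) (h : Rc E n pos B X m φ) : Rc E n (fun k => pos (sp p q k)) B (swp 30 n p q X) m φ := by
  obtain ⟨F, hX, hF, hφ⟩ := h
  refine ⟨fun i => F (sb p q i), ?_, fun i hi => hF _ (sb_lt hpq hq hi), ?_⟩
  · rw [hX]
    exact swp_enc (by norm_num) hpq hq fun i hi => lt_of_le_of_lt (hF i hi) hB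
  · intro a b c d e f z hm
    show F (sb p q (pk n _)) = _
    rw [sb_pk hpq hq (fun k _ => lb_lt hE a b c d e f z _)]
    simp only [sp_sp hpq]
    exact hφ a b c d e f z hm

theorem Rc.dd (hE : Sy E) {n B X m : ℕ} {pos : ℕ → ℕ} {φ : V → V → V → V → V → V → V → ℕ} (w : ℕ)
    (h : Rc E n pos B X m φ) : Rc E (n + 1) (fun k => if k = n then w else pos k) B (d2 (30 * 2 ^ n) X) m φ := by
  obtain ⟨F, hX, hF, hφ⟩ := h
  refine ⟨fun i => F (i % 2 ^ n), ?_, fun i _ => hF _ (Nat.mod_lt _ (by positivity)), ?_⟩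
  · rw [hX, enc_rep]
  · intro a b c d e f z hm
    show F (pk (n + 1) _ % 2 ^ n) = _
    rw [pk_mod (fun k _ => lb_lt hE a b c d e f z _), ← hφ a b c d e f z hm]
    congr 1
    refine pk_congr fun k hk => ?_
    rw [if_neg (by omega)]

theorem Rc.add {n B C X Y m : ℕ} {pos : ℕ → ℕ} {φ ψ : V → V → V → V → V → V → V → ℕ}
    (h : Rc E n pos B X m φ) (k : Rc E n pos C Y m ψ) :
    Rc E n pos (B + C) (Nat.add X Y) m (fun a b c d e f z => φ a b c d e f z + ψ a b c d e f z) := by
  obtain ⟨F, hX, hF, hφ⟩ := h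
  obtain ⟨G, hY, hG, hψ⟩ := k
  refine ⟨fun i => F i + G i, ?_, fun i hi => Nat.add_le_add (hF i hi) (hG i hi), ?_⟩
  · rw [hX, hY]; exact enc_add _ _ _ _
  intro a b c d e f z hm
  show F _ + G _ = _
  rw [hφ _ _ _ _ _ _ _ hm, hψ _ _ _ _ _ _ _ hm]

theorem Rc.congr {n B X m : ℕ} {pos pos' : ℕ → ℕ} {φ : V → V → V → V → V → V → V → ℕ}
    (h : Rc E n pos B X m φ) (hp : ∀ k < n, pos k = pos' k) : Rc E n pos' B X m φ := by
  obtain ⟨F, hX, hF, hφ⟩ := h
  refine ⟨F, hX, hF, fun a b c d e f z hm => ?_⟩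
  rw [← hφ a b c d e f z hm]
  congr 1
  exact pk_congr fun k hk => by rw [hp k hk]

theorem ck_eq (h x : ℕ) : ck h x = enc 30 6 (fun y => fld 30 x (64 * h + y)) := by
  have h1 : ck h x = fld 1920 x h := land_ones x 1920 h
  rw [h1, ← enc_fld (s := 30) (n := 6) (N := fld 1920 x h) (by norm_num) (fld_lt 1920 x h)]
  exact enc_congr fun q hq => fld_fld (s := 30) (k := 6) x h q hq

theorem bt15 : ∀ k < 4, bt k 15 ≠ 0 := by decide

theorem gX_eq (g he k : ℕ) : gX g he k = enc 30 10 (fun j => fld 30 (rw (j / 64 + 16 * g) k) (64 * he + j % 64)) := by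
  unfold gX
  rw [asm_eq _ _ _ _ fun k hk h0 => absurd h0 (bt15 k hk)]
  refine (enc_congr fun c _ => ck_eq he (rw (c + 16 * g) k)).trans ?_
  exact enc_nest 30 6 (fun c y => fld 30 (rw (c + 16 * g) k) (64 * he + y)) 4

theorem X16_eq {g he hf : ℕ} (hg : g < 2) (hhe : he < 16) (hhf : hf < 16) : X16 g he hf = enc 30 16 (fun i =>
    FS 1 (i / 1024 + 64 * hf) (fun k => fld 30 (rw ((i % 1024) / 64 + 16 * g) k) (64 * he + (i % 1024) % 64))) := by
  unfold X16
  refine BF_FS hhf (r := fun k j => fld 30 (rw (j / 64 + 16 * g) k) (64 * he + j % 64)) (fun k _ => gX_eq g he k) ?_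
  intro k hk j hj
  refine (row_lt (by omega) hk).2 _ ?_
  show _ < 1024
  omega

theorem FS_bd {x t y : ℕ} (ht : t < 32) (hy : y < 1024) : FS 1 x (fun k => fld 30 (rw t k) y) ≤ 20016970 := by
  refine le_trans (FS_le x _ fun k hk => (row_lt ht hk).2 y hy) (le_of_eq K2_sum)

theorem mdf {n j k : ℕ} {f : ℕ → ℕ} (h : ∀ i < n + (j + k), f i < 2) :
    pk (n + (j + k)) f / 2 ^ n % 2 ^ j = pk j (fun i => f (n + i)) := by
  rw [pk_div h, pk_mod fun i hi => h _ (by omega)]

theorem ix1 (hE : Sy E) (a b c d e f z : V) : pk 16 (fun k => lb E a b c d e f z k) / 1024 +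
    64 * (kk E a b c d e f / 64 % 16) = kk E a b c d z f % 1024 := by
  have h1 : ∀ k, lb E a b c d e f z k < 2 := lb_lt hE a b c d e f z
  have h2 : ∀ k, kb E a b c d e f k < 2 := kb_lt hE a b c d e f
  have h3 : ∀ k, kb E a b c d z f k < 2 := kb_lt hE a b c d z f
  have i1 : pk 16 (fun k => lb E a b c d e f z k) / 1024 = pk 6 (fun k => lb E a b c d e f z (10 + k)) :=
    pk_div (n := 10) (m := 6) fun k _ => h1 k
  have m1 : kk E a b c d e f / 64 % 16 = pk 4 (fun k => kb E a b c d e f (6 + k)) :=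
    mdf (n := 6) (j := 4) (k := 5) fun k _ => h2 k
  have t1 : kk E a b c d z f % 1024 = pk (6 + 4) (kb E a b c d z f) := pk_mod (n := 10) (m := 5) fun k _ => h3 k
  rw [i1, m1, t1, pk_add]
  have e1 : pk 6 (fun k => lb E a b c d e f z (10 + k)) = pk 6 (kb E a b c d z f) := pk_congr fun k hk => by
    interval_cases k <;> exact hE.s3 _ _ _ _
  have e2 : pk 4 (fun k => kb E a b c d e f (6 + k)) = pk 4 (fun k => kb E a b c d z f (6 + k)) := pk_congr fun k hk => by
    interval_cases k <;> rfl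
  rw [e1, e2]
  norm_num

theorem ix2 (hE : Sy E) (a b c d e f z : V) : (pk 16 (fun k => lb E a b c d e f z k) % 1024) / 64 +
    16 * (kk E a b c d e f / 16384) = kk E a b c d z f / 1024 := by
  have h1 : ∀ k, lb E a b c d e f z k < 2 := lb_lt hE a b c d e f z
  have h2 : ∀ k, kb E a b c d e f k < 2 := kb_lt hE a b c d e f
  have h3 : ∀ k, kb E a b c d z f k < 2 := kb_lt hE a b c d z f
  have i2 : pk 16 (fun k => lb E a b c d e f z k) % 1024 = pk 10 (fun k => lb E a b c d e f z k) :=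
    pk_mod (n := 10) (m := 6) fun k _ => h1 k
  have i3 : pk 10 (fun k => lb E a b c d e f z k) / 64 = pk 4 (fun k => lb E a b c d e f z (6 + k)) :=
    pk_div (n := 6) (m := 4) fun k _ => h1 k
  have m3 : kk E a b c d e f / 16384 = pk 1 (fun k => kb E a b c d e f (14 + k)) :=
    pk_div (n := 14) (m := 1) fun k _ => h2 k
  have t3 : kk E a b c d z f / 1024 = pk (4 + 1) (fun k => kb E a b c d z f (10 + k)) :=
    pk_div (n := 10) (m := 5) fun k _ => h3 k
  rw [i2, i3, m3, t3, pk_add]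
  have e1 : pk 4 (fun k => lb E a b c d e f z (6 + k)) = pk 4 (fun k => kb E a b c d z f (10 + k)) :=
    pk_congr fun k hk => by interval_cases k <;> rfl
  have e2 : pk 1 (fun k => kb E a b c d e f (14 + k)) = pk 1 (fun k => kb E a b c d z f (10 + (4 + k))) :=
    pk_congr fun k hk => by interval_cases k; rfl
  rw [e1, e2]
  norm_num

theorem ix3 (hE : Sy E) (a b c d e f z : V) : 64 * (kk E a b c d e f / 1024 % 16) +
    (pk 16 (fun k => lb E a b c d e f z k) % 1024) % 64 = kk E a b c d z e % 1024 := by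
  have h1 : ∀ k, lb E a b c d e f z k < 2 := lb_lt hE a b c d e f z
  have h2 : ∀ k, kb E a b c d e f k < 2 := kb_lt hE a b c d e f
  have h4 : ∀ k, kb E a b c d z e k < 2 := kb_lt hE a b c d z e
  have i2 : pk 16 (fun k => lb E a b c d e f z k) % 1024 = pk 10 (fun k => lb E a b c d e f z k) :=
    pk_mod (n := 10) (m := 6) fun k _ => h1 k
  have i4 : pk 10 (fun k => lb E a b c d e f z k) % 64 = pk 6 (fun k => lb E a b c d e f z k) :=
    pk_mod (n := 6) (m := 4) fun k _ => h1 k
  have m2 : kk E a b c d e f / 1024 % 16 = pk 4 (fun k => kb E a b c d e f (10 + k)) :=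
    mdf (n := 10) (j := 4) (k := 1) fun k _ => h2 k
  have t2 : kk E a b c d z e % 1024 = pk (6 + 4) (kb E a b c d z e) := pk_mod (n := 10) (m := 5) fun k _ => h4 k
  rw [i2, i4, m2, t2, pk_add, add_comm]
  have e1 : pk 6 (fun k => lb E a b c d e f z k) = pk 6 (kb E a b c d z e) := pk_congr fun k hk => by
    interval_cases k <;> exact hE.s3 _ _ _ _
  have e2 : pk 4 (fun k => kb E a b c d e f (10 + k)) = pk 4 (fun k => kb E a b c d z e (6 + k)) := pk_congr fun k hk => by
    interval_cases k <;> rfl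
  rw [e1, e2]
  norm_num

theorem XM_rc (hE : Sy E) {m : ℕ} (hm : m < 2 ^ 15) : Rc E 16 id 20016970 (XM m) m (TT E) := by
  have hg : m / 16384 < 2 := Nat.div_lt_of_lt_mul hm
  have hhe : m / 1024 % 16 < 16 := Nat.mod_lt _ (by norm_num)
  have hhf : m / 64 % 16 < 16 := Nat.mod_lt _ (by norm_num)
  refine ⟨fun i => FS 1 (i / 1024 + 64 * (m / 64 % 16)) (fun k => fld 30 (rw ((i % 1024) / 64 + 16 * (m / 16384)) k)
    (64 * (m / 1024 % 16) + (i % 1024) % 64)), ?_, ?_, ?_⟩
  · unfold XM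
    rw [st_eq, st_eq, st_eq]
    exact X16_eq hg hhe hhf
  · intro i hi
    have hi' : i < 65536 := hi
    exact FS_bd (by omega) (by omega)
  · intro a b c d e f z hk
    have e1 := ix1 hE a b c d e f z
    have e2 := ix2 hE a b c d e f z
    have e3 := ix3 hE a b c d e f z
    rw [hk] at e1 e2 e3
    show FS 1 (pk 16 (fun k => lb E a b c d e f z k) / 1024 + 64 * (m / 64 % 16)) (fun k => fld 30
      (rw ((pk 16 (fun k => lb E a b c d e f z k) % 1024) / 64 + 16 * (m / 16384)) k)
      (64 * (m / 1024 % 16) + (pk 16 (fun k => lb E a b c d e f z k) % 1024) % 64)) = pv (kk E a b c d z f) (kk E a b c d z e)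
    unfold pv
    rw [e1, e2, e3]

end

end Pool.Agent.H35.Y
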