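import Pool.Agent.H35.Y.Red

/-! Summation of the pointwise inequality. -/

set_option autoImplicit false
set_option maxRecDepth 100000
open Finset

namespace Pool.Agent.H35.Y
open Pool.Agent.T2H33.K6

noncomputable section

variable {V : Type} {E : V → V → V → V → ℕ}

attribute [local irreducible] FS rw K2 SG O10 enc fld GV pv gP

theorem sum_cons [Fintype V] {M : Type} [AddCommMonoid M] (n : ℕ) (F : (Fin (n + 1) → V) → M) :
    ∑ v, F v = ∑ a, ∑ w : Fin n → V, F (Fin.cons a w) := by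
  rw [← (Fin.consEquiv (fun _ => V)).sum_comp, Fintype.sum_prod_type]
  rfl

/-- sum over all the sequences of seven vertices -/
def S7 [Fintype V] (φ : V → V → V → V → V → V → V → ℕ) : ℕ :=
  ∑ v : Fin 7 → V, φ (v 0) (v 1) (v 2) (v 3) (v 4) (v 5) (v 6)

theorem S7_perm [Fintype V] (p q : Fin 7 → Fin 7) (h1 : ∀ i, q (p i) = i) (h2 : ∀ i, p (q i) = i)
    (φ : V → V → V → V → V → V → V → ℕ) :
    ∑ v : Fin 7 → V, φ (v (p 0)) (v (p 1)) (v (p 2)) (v (p 3)) (v (p 4)) (v (p 5)) (v (p 6)) = S7 φ :=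
  Fintype.sum_equiv (Equiv.arrowCongr (⟨q, p, h2, h1⟩ : Fin 7 ≃ Fin 7) (Equiv.refl V)) _ _ fun _ => rfl

theorem S7_add [Fintype V] (φ ψ : V → V → V → V → V → V → V → ℕ) :
    S7 (fun a b c d e f z => φ a b c d e f z + ψ a b c d e f z) = S7 φ + S7 ψ := sum_add_distrib

theorem S7_mono [Fintype V] {φ ψ : V → V → V → V → V → V → V → ℕ} (h : ∀ a b c d e f z, φ a b c d e f z ≤ ψ a b c d e f z) :
    S7 φ ≤ S7 ψ := sum_le_sum fun v _ => h _ _ _ _ _ _ _

theorem S7_const [Fintype V] (c : ℕ) : S7 (fun _ _ _ _ _ _ _ : V => c) = c * Fintype.card V ^ 7 := by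
  unfold S7
  rw [sum_const, card_univ, smul_eq_mul, Fintype.card_fun, Fintype.card_fin, mul_comm]

theorem S7_nest [Fintype V] (φ : V → V → V → V → V → V → V → ℕ) :
    S7 φ = ∑ a, ∑ b, ∑ c, ∑ d, ∑ e, ∑ f, ∑ z, φ a b c d e f z := by
  unfold S7
  rw [sum_cons]; refine sum_congr rfl fun a _ => ?_
  rw [sum_cons]; refine sum_congr rfl fun b _ => ?_
  rw [sum_cons]; refine sum_congr rfl fun c _ => ?_
  rw [sum_cons]; refine sum_congr rfl fun d _ => ?_
  rw [sum_cons]; refine sum_congr rfl fun e _ => ?_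
  rw [sum_cons]; refine sum_congr rfl fun f _ => ?_
  rw [sum_cons]; refine sum_congr rfl fun z _ => ?_
  rw [Fintype.sum_unique]
  rfl

theorem wt0 [Fintype V] : S7 (fun a b c d e f z => TT E a b c d e f z) = S7 (TT E) := S7_perm ![0, 1, 2, 3, 4, 5, 6] ![0, 1, 2, 3, 4, 5, 6] (by decide) (by decide) (TT E)
theorem wy0 [Fintype V] : S7 (fun a b c d e f z => YY E a b c d e f z) = S7 (YY E) := S7_perm ![0, 1, 2, 3, 4, 5, 6] ![0, 1, 2, 3, 4, 5, 6] (by decide) (by decide) (YY E)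
theorem wt1 [Fintype V] : S7 (fun a b c d e f z => TT E f b c d e a z) = S7 (TT E) := S7_perm ![5, 1, 2, 3, 4, 0, 6] ![5, 1, 2, 3, 4, 0, 6] (by decide) (by decide) (TT E)
theorem wy1 [Fintype V] : S7 (fun a b c d e f z => YY E f b c d e a z) = S7 (YY E) := S7_perm ![5, 1, 2, 3, 4, 0, 6] ![5, 1, 2, 3, 4, 0, 6] (by decide) (by decide) (YY E)
theorem wt2 [Fintype V] : S7 (fun a b c d e f z => TT E a f c d e b z) = S7 (TT E) := S7_perm ![0, 5, 2, 3, 4, 1, 6] ![0, 5, 2, 3, 4, 1, 6] (by decide) (by decide) (TT E)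
theorem wy2 [Fintype V] : S7 (fun a b c d e f z => YY E a f c d e b z) = S7 (YY E) := S7_perm ![0, 5, 2, 3, 4, 1, 6] ![0, 5, 2, 3, 4, 1, 6] (by decide) (by decide) (YY E)
theorem wt3 [Fintype V] : S7 (fun a b c d e f z => TT E a b f d e c z) = S7 (TT E) := S7_perm ![0, 1, 5, 3, 4, 2, 6] ![0, 1, 5, 3, 4, 2, 6] (by decide) (by decide) (TT E)
theorem wy3 [Fintype V] : S7 (fun a b c d e f z => YY E a b f d e c z) = S7 (YY E) := S7_perm ![0, 1, 5, 3, 4, 2, 6] ![0, 1, 5, 3, 4, 2, 6] (by decide) (by decide) (YY E)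
theorem wt4 [Fintype V] : S7 (fun a b c d e f z => TT E a b c f d e z) = S7 (TT E) := S7_perm ![0, 1, 2, 5, 3, 4, 6] ![0, 1, 2, 4, 5, 3, 6] (by decide) (by decide) (TT E)
theorem wy4 [Fintype V] : S7 (fun a b c d e f z => YY E a b c f d e z) = S7 (YY E) := S7_perm ![0, 1, 2, 5, 3, 4, 6] ![0, 1, 2, 4, 5, 3, 6] (by decide) (by decide) (YY E)
theorem wt5 [Fintype V] : S7 (fun a b c d e f z => TT E a b e f c d z) = S7 (TT E) := S7_perm ![0, 1, 4, 5, 2, 3, 6] ![0, 1, 4, 5, 2, 3, 6] (by decide) (by decide) (TT E)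
theorem wy5 [Fintype V] : S7 (fun a b c d e f z => YY E a b e f c d z) = S7 (YY E) := S7_perm ![0, 1, 4, 5, 2, 3, 6] ![0, 1, 4, 5, 2, 3, 6] (by decide) (by decide) (YY E)
theorem wt6 [Fintype V] : S7 (fun a b c d e f z => TT E e b c d a f z) = S7 (TT E) := S7_perm ![4, 1, 2, 3, 0, 5, 6] ![4, 1, 2, 3, 0, 5, 6] (by decide) (by decide) (TT E)
theorem wt7 [Fintype V] : S7 (fun a b c d e f z => TT E a e c d b f z) = S7 (TT E) := S7_perm ![0, 4, 2, 3, 1, 5, 6] ![0, 4, 2, 3, 1, 5, 6] (by decide) (by decide) (TT E)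
theorem wt8 [Fintype V] : S7 (fun a b c d e f z => TT E a b e d c f z) = S7 (TT E) := S7_perm ![0, 1, 4, 3, 2, 5, 6] ![0, 1, 4, 3, 2, 5, 6] (by decide) (by decide) (TT E)
theorem wt9 [Fintype V] : S7 (fun a b c d e f z => TT E a b c e d f z) = S7 (TT E) := S7_perm ![0, 1, 2, 4, 3, 5, 6] ![0, 1, 2, 4, 3, 5, 6] (by decide) (by decide) (TT E)
theorem wt10 [Fintype V] : S7 (fun a b c d e f z => TT E e f c d a b z) = S7 (TT E) := S7_perm ![4, 5, 2, 3, 0, 1, 6] ![4, 5, 2, 3, 0, 1, 6] (by decide) (by decide) (TT E)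
theorem wt11 [Fintype V] : S7 (fun a b c d e f z => TT E e b f d a c z) = S7 (TT E) := S7_perm ![4, 1, 5, 3, 0, 2, 6] ![4, 1, 5, 3, 0, 2, 6] (by decide) (by decide) (TT E)
theorem wt12 [Fintype V] : S7 (fun a b c d e f z => TT E e b c f a d z) = S7 (TT E) := S7_perm ![4, 1, 2, 5, 0, 3, 6] ![4, 1, 2, 5, 0, 3, 6] (by decide) (by decide) (TT E)
theorem wt13 [Fintype V] : S7 (fun a b c d e f z => TT E a e f d b c z) = S7 (TT E) := S7_perm ![0, 4, 5, 3, 1, 2, 6] ![0, 4, 5, 3, 1, 2, 6] (by decide) (by decide) (TT E)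
theorem wt14 [Fintype V] : S7 (fun a b c d e f z => TT E a e c f b d z) = S7 (TT E) := S7_perm ![0, 4, 2, 5, 1, 3, 6] ![0, 4, 2, 5, 1, 3, 6] (by decide) (by decide) (TT E)

theorem W0_sum [Fintype V] : S7 (W0 E) = 15 * S7 (TT E) + 6 * S7 (YY E) := by
  have h : S7 (W0 E) = (S7 (fun a b c d e f z => TT E a b c d e f z) + S7 (fun a b c d e f z => YY E a b c d e f z)) + ((S7 (fun a b c d e f z => TT E f b c d e a z) + S7 (fun a b c d e f z => YY E f b c d e a z)) + ((S7 (fun a b c d e f z => TT E a f c d e b z) + S7 (fun a b c d e f z => YY E a f c d e b z)) + ((S7 (fun a b c d e f z => TT E a b f d e c z) + S7 (fun a b c d e f z => YY E a b f d e c z)) + ((S7 (fun a b c d e f z => TT E a b c f d e z) + S7 (fun a b c d e f z => YY E a b c f d e z)) + ((S7 (fun a b c d e f z => TT E a b e f c d z) + S7 (fun a b c d e f z => YY E a b e f c d z)) + (S7 (fun a b c d e f z => TT E e b c d a f z) + (S7 (fun a b c d e f z => TT E a e c d b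 f z) + (S7 (fun a b c d e f z => TT E a b e d c f z) + (S7 (fun a b c d e f z => TT E a b c e d f z) + (S7 (fun a b c d e f z => TT E e f c d a b z) + (S7 (fun a b c d e f z => TT E e b f d a c z) + (S7 (fun a b c d e f z => TT E e b c f a d z) + (S7 (fun a b c d e f z => TT E a e f d b c z) + (S7 (fun a b c d e f z => TT E a e c f b d z))))))))))))))) := by
    rw [← S7_add, ← S7_add, ← S7_add, ← S7_add, ← S7_add, ← S7_add, ← S7_add, ← S7_add, ← S7_add, ← S7_add, ← S7_add, ← S7_add, ← S7_add, ← S7_add, ← S7_add, ← S7_add, ← S7_add, ← S7_add, ← S7_add, ← S7_add]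
    rfl
  rw [h, wt0, wy0, wt1, wy1, wt2, wy2, wt3, wy3, wt4, wy4, wt5, wy5, wt6, wt7, wt8, wt9, wt10, wt11, wt12, wt13, wt14]
  ring

theorem TT_sum [Fintype V] : S7 (TT E) = S7 (PV E) :=
  S7_perm ![0, 1, 2, 3, 6, 5, 4] ![0, 1, 2, 3, 6, 5, 4] (by decide) (by decide) (PV E)

/-- the sum over the structures on six vertices -/
def G7 [Fintype V] (E : V → V → V → V → ℕ) : ℕ := S7 (fun a b c d e f _ => gP (kk E a b c d e f))

theorem G7_perm [Fintype V] : S7 (fun a b c d e _ z => gP (kk E a b c d e z)) = G7 E :=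
  S7_perm ![0, 1, 2, 3, 4, 6, 5] ![0, 1, 2, 3, 4, 6, 5] (by decide) (by decide) (fun a b c d e f _ => gP (kk E a b c d e f))

theorem YY_sum [Fintype V] : S7 (YY E) = S7 (PV E) + G7 E := by
  rw [← G7_perm, ← S7_add]
  rfl

theorem tot_sum [Fintype V] : S7 (fun a b c d e f z => W0 E a b c d e f z + gP (kk E a b c d e f)) = 21 * S7 (PV E) + 7 * G7 E := by
  rw [S7_add, W0_sum, TT_sum, YY_sum]
  unfold G7
  ring

theorem tot_up [Fintype V] (hE : Sy E) (hK : NK E) : 21 * S7 (PV E) + 7 * G7 E ≤ 234895374 * Fintype.card V ^ 7 := by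
  rw [← tot_sum, ← S7_const]
  exact S7_mono fun a b c d e f z => W0_le hE hK a b c d e f z

/-- number of quadruples of five vertices -/
def e5 (E : V → V → V → V → ℕ) (a b c d e : V) : ℕ := E a b c d + E a b c e + E a b d e + E a c d e + E b c d e

/-- the sum over all the quadruples -/
def S4 [Fintype V] (E : V → V → V → V → ℕ) : ℕ := ∑ a, ∑ b, ∑ c, ∑ d, E a b c d

theorem e5_sum [Fintype V] : ∑ a, ∑ b, ∑ c, ∑ d, ∑ e, e5 E a b c d e = 5 * (Fintype.card V * S4 E) := by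
  have h1 : ∑ a, ∑ b, ∑ c, ∑ d, ∑ _e : V, E a b c d = Fintype.card V * S4 E := by
    unfold S4
    simp only [sum_const, card_univ, smul_eq_mul, mul_sum]
  have h2 : ∑ a, ∑ b, ∑ c, ∑ _d : V, ∑ e, E a b c e = Fintype.card V * S4 E := by
    rw [← h1]
    refine sum_congr rfl fun a _ => sum_congr rfl fun b _ => sum_congr rfl fun c _ => ?_
    rw [sum_comm]
  have h3 : ∑ a, ∑ b, ∑ _c : V, ∑ d, ∑ e, E a b d e = Fintype.card V * S4 E := by
    rw [← h2]
    refine sum_congr rfl fun a _ => sum_congr rfl fun b _ => ?_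
    rw [sum_comm]
  have h4 : ∑ a, ∑ _b : V, ∑ c, ∑ d, ∑ e, E a c d e = Fintype.card V * S4 E := by
    rw [← h3]
    refine sum_congr rfl fun a _ => ?_
    rw [sum_comm]
  have h5 : ∑ _a : V, ∑ b, ∑ c, ∑ d, ∑ e, E b c d e = Fintype.card V * S4 E := by
    rw [← h4, sum_comm]
  unfold e5
  simp only [sum_add_distrib]
  rw [h1, h2, h3, h4, h5]
  ring

theorem pc5_ty (hE : Sy E) (a b c d e : V) : pc5 (pk 5 (tyb E a b c d e)) = e5 E a b c d e := by
  have h : ∀ k < 5, tyb E a b c d e k < 2 := fun k hk => by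
    interval_cases k <;> exact hE.lt _ _ _ _
  unfold pc5
  rw [bt_pk h (by norm_num), bt_pk h (by norm_num), bt_pk h (by norm_num), bt_pk h (by norm_num), bt_pk h (by norm_num)]
  show E a b c e + E a b d e + E a c d e + E b c d e + E a b c d = E a b c d + E a b c e + E a b d e + E a c d e + E b c d e
  omega

theorem PV_low1 [Fintype V] (hE : Sy E) (a b c d e : V) :
    ((9844645 : ℤ) + 65536 * e5 E a b c d e) * (Fintype.card V : ℤ) ^ 2 ≤ ∑ x, ∑ y, (PV E a b c d e x y : ℤ) := by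
  have ht : pk 5 (tyb E a b c d e) < 32 := by
    rw [← kk_ty hE a b c d e a]
    exact Nat.div_lt_of_lt_mul (kk_lt hE a b c d e a)
  have h := (Pr_all _ ht).2 V (fun x => kk E a b c d e x % 1024) (fun x => Nat.mod_lt _ (by norm_num))
  rw [pc5_ty hE] at h
  refine le_trans h (le_of_eq ?_)
  refine sum_congr rfl fun x _ => sum_congr rfl fun y _ => ?_
  show _ = ((pv (kk E a b c d e x) (kk E a b c d e y) : ℕ) : ℤ)
  rw [pv_qq, kk_ty hE a b c d e x]

theorem PV_low [Fintype V] (hE : Sy E) :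
    9844645 * (Fintype.card V : ℤ) ^ 7 + 327680 * ((Fintype.card V : ℤ) ^ 3 * S4 E) ≤ (S7 (PV E) : ℤ) := by
  rw [S7_nest]
  push_cast
  calc 9844645 * (Fintype.card V : ℤ) ^ 7 + 327680 * ((Fintype.card V : ℤ) ^ 3 * S4 E)
      = ∑ a, ∑ b, ∑ c, ∑ d, ∑ e, ((9844645 : ℤ) + 65536 * (e5 E a b c d e : ℤ)) * (Fintype.card V : ℤ) ^ 2 := by
        have h : (∑ a, ∑ b, ∑ c, ∑ d, ∑ e, (e5 E a b c d e : ℤ)) = 5 * (Fintype.card V * S4 E) := by
          exact_mod_cast e5_sum (E := E)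
        simp only [add_mul, sum_add_distrib, sum_const, card_univ, nsmul_eq_mul, ← sum_mul, ← mul_sum]
        rw [h]
        ring
    _ ≤ _ := sum_le_sum fun a _ => sum_le_sum fun b _ => sum_le_sum fun c _ => sum_le_sum fun d _ =>
        sum_le_sum fun e _ => PV_low1 hE a b c d e

/-- number of equal pairs among six vertices -/
def qp [DecidableEq V] (a b c d e f : V) : ℕ := (if a = b then 1 else 0) + (if a = c then 1 else 0) + (if a = d then 1 else 0) + (if a = e then 1 else 0) + (if a = f then 1 else 0) + (if b = c then 1 else 0) + (if b = d then 1 else 0) + (if b = e then 1 else 0) + (if b = f then 1 else 0) + (if c = d then 1 else 0) + (if c = e then 1 else 0) + (if c = f then 1 else 0) + (if d = e then 1 else 0) + (if d = f then 1 else 0) + (if e = f then 1 else 0)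

theorem eq_sum [Fintype V] [DecidableEq V] : S7 (fun a b _ _ _ _ _ : V => if a = b then 1 else 0) = Fintype.card V ^ 6 := by
  rw [S7_nest]
  simp only [sum_const, card_univ, smul_eq_mul, ← mul_sum, sum_ite_eq, mem_univ, if_true, mul_one]
  ring

theorem eq01 [Fintype V] [DecidableEq V] : S7 (fun a b c d e f _ : V => if a = b then 1 else 0) = Fintype.card V ^ 6 :=
  (S7_perm ![0, 1, 2, 3, 4, 5, 6] ![0, 1, 2, 3, 4, 5, 6] (by decide) (by decide) (fun a b _ _ _ _ _ : V => if a = b then 1 else 0)).trans eq_sum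
theorem eq02 [Fintype V] [DecidableEq V] : S7 (fun a b c d e f _ : V => if a = c then 1 else 0) = Fintype.card V ^ 6 :=
  (S7_perm ![0, 2, 1, 3, 4, 5, 6] ![0, 2, 1, 3, 4, 5, 6] (by decide) (by decide) (fun a b _ _ _ _ _ : V => if a = b then 1 else 0)).trans eq_sum
theorem eq03 [Fintype V] [DecidableEq V] : S7 (fun a b c d e f _ : V => if a = d then 1 else 0) = Fintype.card V ^ 6 :=
  (S7_perm ![0, 3, 1, 2, 4, 5, 6] ![0, 2, 3, 1, 4, 5, 6] (by decide) (by decide) (fun a b _ _ _ _ _ : V => if a = b then 1 else 0)).trans eq_sum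
theorem eq04 [Fintype V] [DecidableEq V] : S7 (fun a b c d e f _ : V => if a = e then 1 else 0) = Fintype.card V ^ 6 :=
  (S7_perm ![0, 4, 1, 2, 3, 5, 6] ![0, 2, 3, 4, 1, 5, 6] (by decide) (by decide) (fun a b _ _ _ _ _ : V => if a = b then 1 else 0)).trans eq_sum
theorem eq05 [Fintype V] [DecidableEq V] : S7 (fun a b c d e f _ : V => if a = f then 1 else 0) = Fintype.card V ^ 6 :=
  (S7_perm ![0, 5, 1, 2, 3, 4, 6] ![0, 2, 3, 4, 5, 1, 6] (by decide) (by decide) (fun a b _ _ _ _ _ : V => if a = b then 1 else 0)).trans eq_sum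
theorem eq12 [Fintype V] [DecidableEq V] : S7 (fun a b c d e f _ : V => if b = c then 1 else 0) = Fintype.card V ^ 6 :=
  (S7_perm ![1, 2, 0, 3, 4, 5, 6] ![2, 0, 1, 3, 4, 5, 6] (by decide) (by decide) (fun a b _ _ _ _ _ : V => if a = b then 1 else 0)).trans eq_sum
theorem eq13 [Fintype V] [DecidableEq V] : S7 (fun a b c d e f _ : V => if b = d then 1 else 0) = Fintype.card V ^ 6 :=
  (S7_perm ![1, 3, 0, 2, 4, 5, 6] ![2, 0, 3, 1, 4, 5, 6] (by decide) (by decide) (fun a b _ _ _ _ _ : V => if a = b then 1 else 0)).trans eq_sum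
theorem eq14 [Fintype V] [DecidableEq V] : S7 (fun a b c d e f _ : V => if b = e then 1 else 0) = Fintype.card V ^ 6 :=
  (S7_perm ![1, 4, 0, 2, 3, 5, 6] ![2, 0, 3, 4, 1, 5, 6] (by decide) (by decide) (fun a b _ _ _ _ _ : V => if a = b then 1 else 0)).trans eq_sum
theorem eq15 [Fintype V] [DecidableEq V] : S7 (fun a b c d e f _ : V => if b = f then 1 else 0) = Fintype.card V ^ 6 :=
  (S7_perm ![1, 5, 0, 2, 3, 4, 6] ![2, 0, 3, 4, 5, 1, 6] (by decide) (by decide) (fun a b _ _ _ _ _ : V => if a = b then 1 else 0)).trans eq_sum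
theorem eq23 [Fintype V] [DecidableEq V] : S7 (fun a b c d e f _ : V => if c = d then 1 else 0) = Fintype.card V ^ 6 :=
  (S7_perm ![2, 3, 0, 1, 4, 5, 6] ![2, 3, 0, 1, 4, 5, 6] (by decide) (by decide) (fun a b _ _ _ _ _ : V => if a = b then 1 else 0)).trans eq_sum
theorem eq24 [Fintype V] [DecidableEq V] : S7 (fun a b c d e f _ : V => if c = e then 1 else 0) = Fintype.card V ^ 6 :=
  (S7_perm ![2, 4, 0, 1, 3, 5, 6] ![2, 3, 0, 4, 1, 5, 6] (by decide) (by decide) (fun a b _ _ _ _ _ : V => if a = b then 1 else 0)).trans eq_sum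
theorem eq25 [Fintype V] [DecidableEq V] : S7 (fun a b c d e f _ : V => if c = f then 1 else 0) = Fintype.card V ^ 6 :=
  (S7_perm ![2, 5, 0, 1, 3, 4, 6] ![2, 3, 0, 4, 5, 1, 6] (by decide) (by decide) (fun a b _ _ _ _ _ : V => if a = b then 1 else 0)).trans eq_sum
theorem eq34 [Fintype V] [DecidableEq V] : S7 (fun a b c d e f _ : V => if d = e then 1 else 0) = Fintype.card V ^ 6 :=
  (S7_perm ![3, 4, 0, 1, 2, 5, 6] ![2, 3, 4, 0, 1, 5, 6] (by decide) (by decide) (fun a b _ _ _ _ _ : V => if a = b then 1 else 0)).trans eq_sum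
theorem eq35 [Fintype V] [DecidableEq V] : S7 (fun a b c d e f _ : V => if d = f then 1 else 0) = Fintype.card V ^ 6 :=
  (S7_perm ![3, 5, 0, 1, 2, 4, 6] ![2, 3, 4, 0, 5, 1, 6] (by decide) (by decide) (fun a b _ _ _ _ _ : V => if a = b then 1 else 0)).trans eq_sum
theorem eq45 [Fintype V] [DecidableEq V] : S7 (fun a b c d e f _ : V => if e = f then 1 else 0) = Fintype.card V ^ 6 :=
  (S7_perm ![4, 5, 0, 1, 2, 3, 6] ![2, 3, 4, 5, 0, 1, 6] (by decide) (by decide) (fun a b _ _ _ _ _ : V => if a = b then 1 else 0)).trans eq_sum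

theorem qp_sum [Fintype V] [DecidableEq V] : S7 (fun a b c d e f _ : V => qp a b c d e f) = 15 * Fintype.card V ^ 6 := by
  have h : S7 (fun a b c d e f _ : V => qp a b c d e f) = S7 (fun a b c d e f _ : V => if a = b then 1 else 0) + S7 (fun a b c d e f _ : V => if a = c then 1 else 0) + S7 (fun a b c d e f _ : V => if a = d then 1 else 0) + S7 (fun a b c d e f _ : V => if a = e then 1 else 0) + S7 (fun a b c d e f _ : V => if a = f then 1 else 0) + S7 (fun a b c d e f _ : V => if b = c then 1 else 0) + S7 (fun a b c d e f _ : V => if b = d then 1 else 0) + S7 (fun a b c d e f _ : V => if b = e then 1 else 0) + S7 (fun a b c d e f _ : V => if b = f then 1 else 0) + S7 (fun a b c d e f _ : V => if c = d then 1 else 0) + S7 (fun a b c d e f _ : V => if c = e then 1 else 0) + S7 (fun a b c d e f _ : V => if c = f then 1 else 0) + S7 (fun a b c d e f _ : V => if d = e then 1 else 0) + S7 (fun a b c d e f _ : V => if d = f then 1 else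 0) + S7 (fun a b c d e f _ : V => if e = f then 1 else 0) := by
    rw [← S7_add, ← S7_add, ← S7_add, ← S7_add, ← S7_add, ← S7_add, ← S7_add, ← S7_add, ← S7_add, ← S7_add, ← S7_add, ← S7_add, ← S7_add, ← S7_add]
    rfl
  rw [h, eq01, eq02, eq03, eq04, eq05, eq12, eq13, eq14, eq15, eq23, eq24, eq25, eq34, eq35, eq45]
  ring

/-- six different vertices -/
def Ds (a b c d e f : V) : Prop := a ≠ b ∧ a ≠ c ∧ a ≠ d ∧ a ≠ e ∧ a ≠ f ∧ b ≠ c ∧ b ≠ d ∧ b ≠ e ∧ b ≠ f ∧ c ≠ d ∧ c ≠ e ∧ c ≠ f ∧ d ≠ e ∧ d ≠ f ∧ e ≠ f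

theorem qp_pos [DecidableEq V] {a b c d e f : V} (h : ¬ Ds a b c d e f) : 1 ≤ qp a b c d e f := by
  by_contra hc
  apply h
  unfold qp at hc
  unfold Ds
  refine ⟨?_, ?_, ?_, ?_, ?_, ?_, ?_, ?_, ?_, ?_, ?_, ?_, ?_, ?_, ?_⟩ <;> intro he <;> rw [if_pos he] at hc <;> omega

theorem G7_low [Fintype V] [DecidableEq V] (h : ∀ a b c d e f, Ds a b c d e f → gP (kk E a b c d e f) = 3346707) :
    3346707 * Fintype.card V ^ 7 ≤ G7 E + 3346707 * (15 * Fintype.card V ^ 6) := by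
  have e : 3346707 * (15 * Fintype.card V ^ 6) = S7 (fun a b c d e f _ : V => 3346707 * qp a b c d e f) := by
    rw [← qp_sum]
    unfold S7
    rw [mul_sum]
  rw [e, ← S7_const]
  unfold G7
  rw [← S7_add]
  refine S7_mono fun a b c d e f z => ?_
  by_cases hd : Ds a b c d e f
  · rw [h a b c d e f hd]
    exact Nat.le_add_right _ _
  · have := qp_pos hd
    calc 3346707 = 3346707 * 1 := rfl
      _ ≤ 3346707 * qp a b c d e f := Nat.mul_le_mul_left _ this
      _ ≤ _ := Nat.le_add_left _ _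

/-- **the main inequality** -/
theorem main_ineq [Fintype V] [DecidableEq V] (hE : Sy E) (hK : NK E)
    (h : ∀ a b c d e f, Ds a b c d e f → gP (kk E a b c d e f) = 3346707) :
    6881280 * S4 E ≤ 4730880 * Fintype.card V ^ 4 + 351404235 * Fintype.card V ^ 3 := by
  have h1 : 21 * (S7 (PV E) : ℤ) + 7 * (G7 E : ℤ) ≤ 234895374 * (Fintype.card V : ℤ) ^ 7 := by exact_mod_cast tot_up hE hK
  have h2 : 3346707 * (Fintype.card V : ℤ) ^ 7 ≤ (G7 E : ℤ) + 3346707 * (15 * (Fintype.card V : ℤ) ^ 6) := by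
    exact_mod_cast G7_low h
  have h3 := PV_low hE
  rcases Nat.eq_zero_or_pos (Fintype.card V) with h0 | hpos
  · have hem : IsEmpty V := Fintype.card_eq_zero_iff.mp h0
    unfold S4
    rw [Fintype.sum_empty]
    exact Nat.zero_le _
  · have hp : (0 : ℤ) < (Fintype.card V : ℤ) ^ 3 := by positivity
    have key : (Fintype.card V : ℤ) ^ 3 * (6881280 * S4 E) ≤
        (Fintype.card V : ℤ) ^ 3 * (4730880 * (Fintype.card V : ℤ) ^ 4 + 351404235 * (Fintype.card V : ℤ) ^ 3) := by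
      nlinarith [h1, h2, h3]
    have := le_of_mul_le_mul_left key hp
    exact_mod_cast this

end

end Pool.Agent.H35.Y
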