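import Pool.Agent.H35.Y.Sym2

/-! Positivity of the forms, for all the types. -/

set_option autoImplicit false
set_option maxRecDepth 100000
set_option exponentiation.threshold 40000
open Finset

namespace Pool.Agent.H35.Y
open Pool.Agent.T2H33.K6

noncomputable section

attribute [local irreducible] FS rw K2 SG O10 enc fld GV co np wc vc tj

theorem lc_eq (j i k : ℕ) : lc j i k = fld 64 (vc j k) i := land_ones (vc j k) 64 i
theorem l64_eq (x i : ℕ) : l64 x i = fld 64 x i := land_ones x 64 i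

theorem vc_sp {j k : ℕ} (hj : j < 6) (hk : k < 86) : vc j k = enc 64 7 (fun i => lc j i k) ∧ ∀ i < 2 ^ 7, lc j i k < 16777216 := by
  have h := al_true cV hj
  rw [st_eq] at h
  obtain ⟨h1, h2⟩ := cnd_and (al_true h hk)
  have h1' : vc j k < 2 ^ (64 * 2 ^ 7) := Nat.le_of_ble_eq_true h1
  refine ⟨?_, fun i hi => Nat.le_of_ble_eq_true (al_true h2 hi)⟩
  have e := enc_fld (s := 64) (n := 7) (by norm_num) h1'
  rw [← e]
  exact enc_congr fun i _ => (lc_eq j i k).symm

attribute [local irreducible] lc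

theorem VS_eq {j i : ℕ} (hj : j < 6) (hi : i < 2 ^ 7) : l64 (VS j) i = ∑ k ∈ range 86, lc j i k := by
  have e : VS j = enc 64 7 (fun i => ∑ k ∈ range 86, lc j i k) :=
    (sm_congr (g := fun k => enc 64 7 (fun i => lc j i k)) fun k hk => (vc_sp hj hk).1).trans
      (sm_enc 64 7 86 (fun k i => lc j i k))
  rw [l64_eq, e]
  refine fld_enc (by norm_num) (fun i hi => ?_) hi
  calc ∑ k ∈ range 86, lc j i k ≤ ∑ k ∈ range 86, 16777216 := sum_le_sum fun k hk => le_of_lt ((vc_sp hj (mem_range.mp hk)).2 i hi)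
    _ < _ := by rw [sum_const, card_range]; norm_num

theorem VP_eq {j i l : ℕ} (hj : j < 6) (hi : i < 2 ^ 7) (hl : l < 2 ^ 7) :
    l64 (VP j i) l = ∑ k ∈ range 86, lc j i k * lc j l k := by
  have e : VP j i = enc 64 7 (fun l => ∑ k ∈ range 86, lc j l k * lc j i k) := by
    refine (sm_congr (g := fun k => enc 64 7 (fun l => lc j l k * lc j i k)) fun k hk => ?_).trans
      (sm_enc 64 7 86 (fun k l => lc j l k * lc j i k))
    show lc j i k * vc j k = _
    rw [(vc_sp hj hk).1, mul_comm, enc_mulc]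
  rw [l64_eq, e, fld_enc (by norm_num) (fun l hl => ?_) hl]
  · exact sum_congr rfl fun k _ => mul_comm _ _
  calc ∑ k ∈ range 86, lc j l k * lc j i k ≤ ∑ k ∈ range 86, 16777216 * 16777216 := sum_le_sum fun k hk =>
        Nat.mul_le_mul (le_of_lt ((vc_sp hj (mem_range.mp hk)).2 l hl)) (le_of_lt ((vc_sp hj (mem_range.mp hk)).2 i hi))
    _ < _ := by rw [sum_const, card_range]; norm_num

theorem adg_abs (x y : ℕ) : (adg x y : ℤ) = |(x : ℤ) - y| := by
  show ((x - y + (y - x) : ℕ) : ℤ) = _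
  rcases le_total x y with h | h
  · rw [Nat.sub_eq_zero_of_le h, Nat.zero_add, Nat.cast_sub h, abs_sub_comm, abs_of_nonneg (by
      have : (x : ℤ) ≤ y := by exact_mod_cast h
      linarith)]
  · rw [Nat.sub_eq_zero_of_le h, Nat.add_zero, Nat.cast_sub h, abs_of_nonneg (by
      have : (y : ℤ) ≤ x := by exact_mod_cast h
      linarith)]

/-- entry of the square root -/
def lZ (j i k : ℕ) : ℤ := (lc j i k : ℤ) - 1048576

theorem rest_eq {j i l : ℕ} (hj : j < 6) (hi : i < 2 ^ 7) (hl : l < 2 ^ 7) :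
    (get DT j : ℤ) * cZ j i l - ∑ k ∈ range 86, lZ j i k * lZ j l k = (PPc j i l : ℤ) - NNc j i l := by
  have e : ∑ k ∈ range 86, lZ j i k * lZ j l k = (∑ k ∈ range 86, (lc j i k : ℤ) * (lc j l k : ℤ))
      - 1048576 * ((∑ k ∈ range 86, (lc j i k : ℤ)) + ∑ k ∈ range 86, (lc j l k : ℤ)) + 94557999988736 := by
    have c : (94557999988736 : ℤ) = ∑ k ∈ range 86, (1048576 * 1048576 : ℤ) := by rw [sum_const, card_range]; norm_num
    rw [c, ← sum_add_distrib, mul_sum, ← sum_sub_distrib, ← sum_add_distrib]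
    refine sum_congr rfl fun k _ => ?_
    unfold lZ
    ring
  rw [e]
  unfold PPc NNc
  simp only [Nat.add_eq, Nat.mul_eq]
  rw [VS_eq hj hi, VS_eq hj hl, VP_eq hj hi hl]
  push_cast
  unfold cZ
  ring

/-- the relations -/
def WZ (j i k : ℕ) : ℤ := if np j i = true then (if k = i then (get wT j : ℤ) else 0) else (wc j i k : ℤ) - 64

theorem cC_sp {j i : ℕ} (hj : j < 6) (hi : i < 86) (hn : np j i = false) :
    (∀ k < 86, np j k = false → wc j i k = 64) ∧ ∀ l < 86, get wT j * co j i l + (131072 * (∑ k ∈ range 86, wc j i k) +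
      64 * ∑ k ∈ range 86, co j k l) = (∑ k ∈ range 86, wc j i k * co j k l) + (get wT j * 131072 + 721420288) := by
  have h := al_true cC hj
  rw [st_eq] at h
  have h1 : cnd (np j i) true _ = true := al_true h hi
  rw [hn] at h1
  obtain ⟨h2, h3⟩ := cnd_and (show cnd _ _ false = true from h1)
  refine ⟨fun k hk hnk => ?_, fun l hl => ?_⟩
  · have h4 : cnd (np j k) true _ = true := al_true h2 hk
    rw [hnk] at h4
    exact Nat.eq_of_beq_eq_true h4
  · have h4 := Nat.eq_of_beq_eq_true (al_true h3 hl)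
    simp only [sm_sum, Nat.add_eq, Nat.mul_eq] at h4
    exact h4

theorem psdA {j : ℕ} (hj : j < 6) : ∀ i < 86, ∀ l < 86, cZ j i l = cZ j l i := by
  intro i hi l hl
  unfold cZ
  rw [(co_sp hj hi hl).1]

theorem psdB {j : ℕ} (hj : j < 6) : ∀ i < 86, ∀ k < 86, np j k = false → WZ j i k = 0 := by
  intro i hi k hk hn
  unfold WZ
  by_cases h : np j i = true
  · rw [if_pos h]
    by_cases hki : k = i
    · subst hki
      rw [h] at hn
      exact absurd hn (by decide)
    · rw [if_neg hki]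
  · rw [if_neg h, (cC_sp hj hi (by simpa using h)).1 k hk hn]
    norm_num

theorem psdC {j : ℕ} (hj : j < 6) : ∀ i < 86, ∀ l < 86, (get wT j : ℤ) * cZ j i l = ∑ k ∈ range 86, WZ j i k * cZ j k l := by
  intro i hi l hl
  by_cases h : np j i = true
  · have : ∀ k ∈ range 86, WZ j i k * cZ j k l = if k = i then (get wT j : ℤ) * cZ j i l else 0 := by
      intro k _
      unfold WZ
      rw [if_pos h]
      by_cases hki : k = i
      · subst hki
        rw [if_pos rfl, if_pos rfl]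
      · rw [if_neg hki, if_neg hki, zero_mul]
    rw [sum_congr rfl this, sum_ite_eq', if_pos (mem_range.mpr hi)]
  · have h1 := (cC_sp hj hi (by simpa using h)).2 l hl
    have h2 : (get wT j : ℤ) * (co j i l : ℤ) + (131072 * (∑ k ∈ range 86, (wc j i k : ℤ)) +
      64 * ∑ k ∈ range 86, (co j k l : ℤ)) = (∑ k ∈ range 86, (wc j i k : ℤ) * (co j k l : ℤ)) +
      ((get wT j : ℤ) * 131072 + 721420288) := by exact_mod_cast h1
    have e : ∑ k ∈ range 86, WZ j i k * cZ j k l = (∑ k ∈ range 86, (wc j i k : ℤ) * (co j k l : ℤ)) -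
      131072 * (∑ k ∈ range 86, (wc j i k : ℤ)) - 64 * (∑ k ∈ range 86, (co j k l : ℤ)) + 721420288 := by
      have c : (721420288 : ℤ) = ∑ k ∈ range 86, (64 * 131072 : ℤ) := by rw [sum_const, card_range]; norm_num
      rw [c, mul_sum, mul_sum, ← sum_sub_distrib, ← sum_sub_distrib, ← sum_add_distrib]
      refine sum_congr rfl fun k _ => ?_
      unfold WZ cZ
      rw [if_neg h]
      ring
    rw [e]
    unfold cZ
    linarith

theorem cnd_true {α : Type} (a b : α) : cnd true a b = a := rfl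
theorem cnd_false {α : Type} (a b : α) : cnd false a b = b := rfl

theorem cD_sp {j i : ℕ} (hj : j < 6) (hi : i < 86) (hn : np j i = true) :
    (∑ l ∈ range 86, dN j i l) + NNc j i i ≤ PPc j i i := by
  have h1 : chkD j i = true := al_true (cD_all hj) hi
  unfold chkD at h1
  rw [hn, cnd_true] at h1
  have h2 := Nat.le_of_ble_eq_true h1
  rw [sm_sum, Nat.add_eq] at h2
  exact h2

theorem dN_eq {j i l : ℕ} (hj : j < 6) (hi : i < 86) (hl : l < 86) : (if i = l ∨ np j l = false then (0 : ℤ)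
    else |(get DT j : ℤ) * cZ j i l - ∑ k ∈ range 86, lZ j i k * lZ j l k|) = (dN j i l : ℤ) := by
  have hi7 : i < 2 ^ 7 := by norm_num; omega
  have hl7 : l < 2 ^ 7 := by norm_num; omega
  unfold dN
  by_cases hil : i = l
  · subst hil
    rw [if_pos (Or.inl rfl), show Nat.beq i i = true from Nat.beq_refl i, cnd_true, Nat.cast_zero]
  · have hb : Nat.beq i l = false := by
      rw [← Bool.not_eq_true]; exact fun hh => hil (Nat.eq_of_beq_eq_true hh)
    rw [hb, cnd_false]
    cases hnl : np j l with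
    | false => rw [if_pos (Or.inr rfl), cnd_false, Nat.cast_zero]
    | true => rw [if_neg (by simp [hil]), rest_eq hj hi7 hl7, cnd_true, adg_abs]

theorem psdD {j : ℕ} (hj : j < 6) : ∀ i < 86, np j i = true → ∑ l ∈ range 86, (if i = l ∨ np j l = false then (0 : ℤ)
    else |(get DT j : ℤ) * cZ j i l - ∑ k ∈ range 86, lZ j i k * lZ j l k|) ≤
    (get DT j : ℤ) * cZ j i i - ∑ k ∈ range 86, lZ j i k * lZ j i k := by
  intro i hi hn
  have hi7 : i < 2 ^ 7 := by norm_num; omega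
  have h2 := cD_sp hj hi hn
  have h3 : (∑ l ∈ range 86, (dN j i l : ℤ)) + (NNc j i i : ℤ) ≤ PPc j i i := by exact_mod_cast h2
  rw [rest_eq hj hi7 hi7, sum_congr rfl fun l hl => dN_eq hj hi (mem_range.mp hl)]
  linarith

theorem psd {j : ℕ} (hj : j < 6) (u : ℕ → ℤ) : 0 ≤ ∑ k ∈ range 86, ∑ l ∈ range 86, cZ j k l * (u k * u l) := by
  obtain ⟨w1, w2⟩ := cnd_and (al_true cw hj)
  have hw : (0 : ℤ) < (get wT j : ℤ) := by exact_mod_cast Nat.le_of_ble_eq_true w1
  have hD : (0 : ℤ) < (get DT j : ℤ) := by exact_mod_cast Nat.le_of_ble_eq_true w2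
  exact psdW 86 86 (cZ j) (lZ j) (WZ j) (np j) (get DT j) (get wT j) hD hw (psdA hj) (psdB hj) (psdC hj) (psdD hj) u

/-- number of quadruples of the type -/
def pc5 (t : ℕ) : ℕ := bt 0 t + bt 1 t + bt 2 t + bt 3 t + bt 4 t

/-- symmetry and positivity for the type `t` -/
def Pr (t : ℕ) : Prop := (∀ x < 2 ^ 10, ∀ y < 2 ^ 10, qq t x y = qq t y x) ∧
  ∀ (V : Type) [Fintype V] (x : V → ℕ), (∀ v, x v < 2 ^ 10) →
    ((9844645 : ℤ) + 65536 * pc5 t) * (Fintype.card V : ℤ) ^ 2 ≤ ∑ v, ∑ w, (qq t (x v) (x w) : ℤ)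

theorem form_sum {V : Type} [Fintype V] (c : ℕ → ℕ → ℤ) (e : ℕ → V → ℤ) :
    ∑ v, ∑ w, ∑ k ∈ range 86, ∑ l ∈ range 86, c k l * (e k v * e l w) =
      ∑ k ∈ range 86, ∑ l ∈ range 86, c k l * ((∑ v, e k v) * (∑ w, e l w)) := by
  calc ∑ v, ∑ w, ∑ k ∈ range 86, ∑ l ∈ range 86, c k l * (e k v * e l w)
      = ∑ v, ∑ k ∈ range 86, ∑ w, ∑ l ∈ range 86, c k l * (e k v * e l w) :=
        sum_congr rfl fun v _ => sum_comm
    _ = ∑ k ∈ range 86, ∑ v, ∑ w, ∑ l ∈ range 86, c k l * (e k v * e l w) := sum_comm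
    _ = ∑ k ∈ range 86, ∑ v, ∑ l ∈ range 86, ∑ w, c k l * (e k v * e l w) :=
        sum_congr rfl fun k _ => sum_congr rfl fun v _ => sum_comm
    _ = ∑ k ∈ range 86, ∑ l ∈ range 86, ∑ v, ∑ w, c k l * (e k v * e l w) :=
        sum_congr rfl fun k _ => sum_comm
    _ = _ := by
        refine sum_congr rfl fun k _ => sum_congr rfl fun l _ => ?_
        rw [Finset.sum_mul_sum, mul_sum]
        refine sum_congr rfl fun v _ => ?_
        rw [mul_sum]

theorem Pr_c {j : ℕ} (hj : j < 6) (hp : pc5 (tj j) = j) : Pr (tj j) := by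
  refine ⟨fun x hx y hy => qq_sym_c hj hx hy, fun V _ x hx => ?_⟩
  have e : ∑ v, ∑ w, (qq (tj j) (x v) (x w) : ℤ) = ((9844645 : ℤ) + 65536 * j) * (Fintype.card V : ℤ) ^ 2 +
      ∑ k ∈ range 86, ∑ l ∈ range 86, cZ j k l * ((∑ v, eps k (x v)) * (∑ w, eps l (x w))) := by
    rw [← form_sum (cZ j) (fun k v => eps k (x v))]
    have : ((9844645 : ℤ) + 65536 * j) * (Fintype.card V : ℤ) ^ 2 = ∑ v : V, ∑ w : V, ((9844645 : ℤ) + 65536 * j) := by
      simp only [sum_const, card_univ, nsmul_eq_mul]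
      ring
    rw [this, ← sum_add_distrib]
    refine sum_congr rfl fun v _ => ?_
    rw [← sum_add_distrib]
    exact sum_congr rfl fun w _ => qqZ hj (hx w)
  rw [e, hp]
  have := psd hj (fun k => ∑ v, eps k (x v))
  linarith

theorem Pr_tr {t t' : ℕ} (f g : ℕ → ℕ) (hg : ∀ y < 2 ^ 10, g y < 2 ^ 10) (hfg : ∀ y < 2 ^ 10, f (g y) = y)
    (hq : ∀ x < 2 ^ 10, ∀ y < 2 ^ 10, qq t' (f x) (f y) = qq t x y) (hp : pc5 t' = pc5 t) (h : Pr t) : Pr t' := by
  have key : ∀ x < 2 ^ 10, ∀ y < 2 ^ 10, qq t' x y = qq t (g x) (g y) := fun x hx y hy => by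
    rw [← hq (g x) (hg x hx) (g y) (hg y hy), hfg x hx, hfg y hy]
  refine ⟨fun x hx y hy => ?_, fun V _ x hx => ?_⟩
  · rw [key x hx y hy, key y hy x hx]
    exact h.1 _ (hg x hx) _ (hg y hy)
  · rw [hp]
    refine le_trans (h.2 V (fun v => g (x v)) fun v => hg _ (hx v)) (le_of_eq ?_)
    exact sum_congr rfl fun v _ => sum_congr rfl fun w _ => by rw [key _ (hx v) _ (hx w)]

theorem Pr01 {t t' : ℕ} (ht : t < 32) (h' : ts01 t = t') (hp : pc5 t' = pc5 t) (h : Pr t) : Pr t' := by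
  subst h'
  exact Pr_tr fs01 fi01 (fun y hy => fi01_lt hy) (fun y hy => fs01_fi hy) (fun x hx y hy => qq01 ht hx hy) hp h

theorem Pr12 {t t' : ℕ} (ht : t < 32) (h' : ts12 t = t') (hp : pc5 t' = pc5 t) (h : Pr t) : Pr t' := by
  subst h'
  exact Pr_tr fs12 fi12 (fun y hy => fi12_lt hy) (fun y hy => fs12_fi hy) (fun x hx y hy => qq12 ht hx hy) hp h

theorem Pr23 {t t' : ℕ} (ht : t < 32) (h' : ts23 t = t') (hp : pc5 t' = pc5 t) (h : Pr t) : Pr t' := by
  subst h'
  exact Pr_tr fs23 fi23 (fun y hy => fi23_lt hy) (fun y hy => fs23_fi hy) (fun x hx y hy => qq23 ht hx hy) hp h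

theorem Pr34 {t t' : ℕ} (ht : t < 32) (h' : ts34 t = t') (hp : pc5 t' = pc5 t) (h : Pr t) : Pr t' := by
  subst h'
  exact Pr_tr fs34 fi34 (fun y hy => fi34_lt hy) (fun y hy => fs34_fi hy) (fun x hx y hy => qq34 ht hx hy) hp h

theorem tj_eq : tj 0 = 0 ∧ tj 1 = 8 ∧ tj 2 = 12 ∧ tj 3 = 14 ∧ tj 4 = 15 ∧ tj 5 = 31 := by
  unfold tj
  decide

theorem pr0 : Pr 0 := by
  have h := Pr_c (j := 0) (by norm_num) (by rw [tj_eq.1]; decide)
  rwa [tj_eq.1] at h
theorem pr8 : Pr 8 := by
  have h := Pr_c (j := 1) (by norm_num) (by rw [tj_eq.2.1]; decide)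
  rwa [tj_eq.2.1] at h
theorem pr12 : Pr 12 := by
  have h := Pr_c (j := 2) (by norm_num) (by rw [tj_eq.2.2.1]; decide)
  rwa [tj_eq.2.2.1] at h
theorem pr14 : Pr 14 := by
  have h := Pr_c (j := 3) (by norm_num) (by rw [tj_eq.2.2.2.1]; decide)
  rwa [tj_eq.2.2.2.1] at h
theorem pr15 : Pr 15 := by
  have h := Pr_c (j := 4) (by norm_num) (by rw [tj_eq.2.2.2.2.1]; decide)
  rwa [tj_eq.2.2.2.2.1] at h
theorem pr31 : Pr 31 := by
  have h := Pr_c (j := 5) (by norm_num) (by rw [tj_eq.2.2.2.2.2]; decide)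
  rwa [tj_eq.2.2.2.2.2] at h
theorem pr4 : Pr 4 := Pr01 (by norm_num) (by decide) (by decide) pr8
theorem pr10 : Pr 10 := Pr12 (by norm_num) (by decide) (by decide) pr12
theorem pr13 : Pr 13 := Pr23 (by norm_num) (by decide) (by decide) pr14
theorem pr30 : Pr 30 := Pr34 (by norm_num) (by decide) (by decide) pr15
theorem pr2 : Pr 2 := Pr12 (by norm_num) (by decide) (by decide) pr4
theorem pr6 : Pr 6 := Pr01 (by norm_num) (by decide) (by decide) pr10
theorem pr9 : Pr 9 := Pr23 (by norm_num) (by decide) (by decide) pr10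
theorem pr11 : Pr 11 := Pr12 (by norm_num) (by decide) (by decide) pr13
theorem pr28 : Pr 28 := Pr34 (by norm_num) (by decide) (by decide) pr13
theorem pr29 : Pr 29 := Pr23 (by norm_num) (by decide) (by decide) pr30
theorem pr1 : Pr 1 := Pr23 (by norm_num) (by decide) (by decide) pr2
theorem pr5 : Pr 5 := Pr23 (by norm_num) (by decide) (by decide) pr6
theorem pr24 : Pr 24 := Pr34 (by norm_num) (by decide) (by decide) pr9
theorem pr7 : Pr 7 := Pr01 (by norm_num) (by decide) (by decide) pr11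
theorem pr26 : Pr 26 := Pr34 (by norm_num) (by decide) (by decide) pr11
theorem pr27 : Pr 27 := Pr12 (by norm_num) (by decide) (by decide) pr29
theorem pr16 : Pr 16 := Pr34 (by norm_num) (by decide) (by decide) pr1
theorem pr3 : Pr 3 := Pr12 (by norm_num) (by decide) (by decide) pr5
theorem pr20 : Pr 20 := Pr34 (by norm_num) (by decide) (by decide) pr5
theorem pr22 : Pr 22 := Pr34 (by norm_num) (by decide) (by decide) pr7
theorem pr25 : Pr 25 := Pr23 (by norm_num) (by decide) (by decide) pr26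
theorem pr23 : Pr 23 := Pr01 (by norm_num) (by decide) (by decide) pr27
theorem pr18 : Pr 18 := Pr34 (by norm_num) (by decide) (by decide) pr3
theorem pr21 : Pr 21 := Pr23 (by norm_num) (by decide) (by decide) pr22
theorem pr17 : Pr 17 := Pr23 (by norm_num) (by decide) (by decide) pr18
theorem pr19 : Pr 19 := Pr12 (by norm_num) (by decide) (by decide) pr21
theorem Pr_all : ∀ t < 32, Pr t := by
  intro t ht
  interval_cases t
  · exact pr0
  · exact pr1
  · exact pr2
  · exact pr3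
  · exact pr4
  · exact pr5
  · exact pr6
  · exact pr7
  · exact pr8
  · exact pr9
  · exact pr10
  · exact pr11
  · exact pr12
  · exact pr13
  · exact pr14
  · exact pr15
  · exact pr16
  · exact pr17
  · exact pr18
  · exact pr19
  · exact pr20
  · exact pr21
  · exact pr22
  · exact pr23
  · exact pr24
  · exact pr25
  · exact pr26
  · exact pr27
  · exact pr28
  · exact pr29
  · exact pr30
  · exact pr31

end

end Pool.Agent.H35.Y
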