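import Pool.Agent.H35.Y.Fin
import Pool.Agent.H35.Y.LowG

/-! The upper bound and the limit. -/

set_option autoImplicit false
open Finset Filter Topology

namespace Pool.Agent.H35.Y

section
variable {V : Type} [Fintype V] [DecidableEq V]

/-- every quadruple has twenty-four orderings -/
theorem orderings (S : Finset V) (hS : S.card = 4) :
    24 ≤ ∑ a : V, ∑ b : V, ∑ c : V, ∑ d : V, if ({a, b, c, d} : Finset V) = S then 1 else 0 := by
  have e := S.equivFinOfCardEq hS
  set f : Fin 4 → V := fun i => (e.symm i : V) with hf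
  have finj : Function.Injective f := fun i j h => e.symm.injective (Subtype.ext h)
  have himg : ∀ s : Equiv.Perm (Fin 4), ({f (s 0), f (s 1), f (s 2), f (s 3)} : Finset V) = S := by
    intro s
    have h1 : ({f (s 0), f (s 1), f (s 2), f (s 3)} : Finset V) = univ.image (fun i => f (s i)) := by
      ext v
      simp only [mem_insert, mem_singleton, mem_image, mem_univ, true_and]
      constructor
      · rintro (rfl | rfl | rfl | rfl)
        · exact ⟨0, rfl⟩
        · exact ⟨1, rfl⟩
        · exact ⟨2, rfl⟩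
        · exact ⟨3, rfl⟩
      · rintro ⟨i, rfl⟩
        fin_cases i <;> simp
    rw [h1]
    ext v
    simp only [mem_image, mem_univ, true_and]
    constructor
    · rintro ⟨i, rfl⟩
      exact (e.symm (s i)).2
    · intro hv
      refine ⟨s.symm (e ⟨v, hv⟩), ?_⟩
      simp [hf]
  have hcount : (univ.filter fun t : V × V × V × V => ({t.1, t.2.1, t.2.2.1, t.2.2.2} : Finset V) = S).card
      = ∑ a : V, ∑ b : V, ∑ c : V, ∑ d : V, if ({a, b, c, d} : Finset V) = S then 1 else 0 := by
    rw [card_filter]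
    simp only [Fintype.sum_prod_type]
  rw [← hcount]
  have h24 : (univ : Finset (Equiv.Perm (Fin 4))).card = 24 := by
    rw [card_univ, Fintype.card_perm]
    rfl
  rw [← h24]
  refine card_le_card_of_injOn (fun s => (f (s 0), f (s 1), f (s 2), f (s 3))) ?_ ?_
  · intro s _
    simp only [mem_coe, mem_filter, mem_univ, true_and]
    exact himg s
  · intro s _ t _ hst
    simp only [Prod.mk.injEq] at hst
    obtain ⟨h0, h1, h2, h3⟩ := hst
    ext i
    fin_cases i
    · exact congrArg Fin.val (finj h0)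
    · exact congrArg Fin.val (finj h1)
    · exact congrArg Fin.val (finj h2)
    · exact congrArg Fin.val (finj h3)

theorem card_le_sum (H : Finset (Finset V)) (h4 : FourGraph H) : 24 * H.card ≤ S4 (ind H) := by
  calc 24 * H.card = ∑ S ∈ H, 24 := by rw [sum_const, smul_eq_mul, mul_comm]
    _ ≤ ∑ S ∈ H, ∑ a : V, ∑ b : V, ∑ c : V, ∑ d : V, (if ({a, b, c, d} : Finset V) = S then 1 else 0) :=
        sum_le_sum fun S hS => orderings S (h4 S hS)
    _ = ∑ a : V, ∑ b : V, ∑ c : V, ∑ d : V, ∑ S ∈ H, (if ({a, b, c, d} : Finset V) = S then 1 else 0) := by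
        rw [Finset.sum_comm]
        refine sum_congr rfl fun a _ => ?_
        rw [Finset.sum_comm]
        refine sum_congr rfl fun b _ => ?_
        rw [Finset.sum_comm]
        refine sum_congr rfl fun c _ => ?_
        rw [Finset.sum_comm]
    _ = _ := by
        refine sum_congr rfl fun a _ => sum_congr rfl fun b _ => sum_congr rfl fun c _ =>
          sum_congr rfl fun d _ => ?_
        rw [Finset.sum_ite_eq]
        rfl

/-- **the upper bound** in terms of the number of induced copies -/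
theorem upper_main (H : Finset (Finset V)) (h4 : FourGraph H) (hK : K5Free H) :
    384 * (Fintype.card V ^ 2 * H.card) ≤ 11 * Fintype.card V ^ 6 + 818 * Fintype.card V ^ 5 + 39220 * copies H := by
  have h1 : 21 * (S7 (PV (ind H)) : ℤ) + 7 * (G7 (ind H) : ℤ) ≤ 234895374 * (Fintype.card V : ℤ) ^ 7 := by
    exact_mod_cast tot_up (ind_sy H) (ind_nk h4 hK)
  have h2 : 3346707 * (Fintype.card V : ℤ) ^ 7 ≤ (G7 (ind H) : ℤ) + (3346707 * (15 * (Fintype.card V : ℤ) ^ 6) +
      3346707 * ((S7 (fun a b c d e f _ : V => oc H a b c d e f) : ℕ) : ℤ)) := by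
    exact_mod_cast G7_low2 h4 hK
  have h3 := PV_low (ind_sy H)
  have h5 : ((S7 (fun a b c d e f _ : V => oc H a b c d e f) : ℕ) : ℤ) ≤ (Fintype.card V : ℤ) * (720 * (copies H : ℤ)) := by
    exact_mod_cast oc_sum H
  have h6 : 24 * (H.card : ℤ) ≤ (S4 (ind H) : ℤ) := by exact_mod_cast card_le_sum H h4
  rcases Nat.eq_zero_or_pos (Fintype.card V) with h0 | hpos
  · rw [h0]
    simp
  · have hp : (0 : ℤ) < (Fintype.card V : ℤ) := by exact_mod_cast hpos
    have hp3 : (0 : ℤ) ≤ (Fintype.card V : ℤ) ^ 3 := by positivity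
    have hp6 : (0 : ℤ) ≤ (Fintype.card V : ℤ) ^ 6 := by positivity
    have hpc : (0 : ℤ) ≤ (Fintype.card V : ℤ) * (copies H : ℤ) := by positivity
    have h7 := mul_le_mul_of_nonneg_left h6 hp3
    have key : (430080 * (Fintype.card V : ℤ)) * (384 * ((Fintype.card V : ℤ) ^ 2 * (H.card : ℤ))) ≤
        (430080 * (Fintype.card V : ℤ)) * (11 * (Fintype.card V : ℤ) ^ 6 + 818 * (Fintype.card V : ℤ) ^ 5 + 39220 * (copies H : ℤ)) := by
      generalize (Fintype.card V : ℤ) = x at *
      generalize (H.card : ℤ) = h at *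
      generalize (copies H : ℤ) = c at *
      have e1 : 430080 * x * (384 * (x ^ 2 * h)) = 6881280 * (x ^ 3 * (24 * h)) := by ring
      have e2 : 430080 * x * (11 * x ^ 6 + 818 * x ^ 5 + 39220 * c) = 4730880 * x ^ 7 + 351805440 * x ^ 6 + 16867737600 * (x * c) := by ring
      rw [e1, e2]
      linarith
    have := le_of_mul_le_mul_left key (by positivity)
    exact_mod_cast this

end

theorem exX_le (n : ℕ) : 384 * (n ^ 2 * exX n) ≤ 11 * n ^ 6 + 818 * n ^ 5 := by
  classical
  unfold exX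
  rw [show (384 * (n ^ 2 * _) ≤ 11 * n ^ 6 + 818 * n ^ 5) = _ from rfl]
  obtain ⟨H, hH, he⟩ := exists_mem_eq_sup ((univ : Finset (Finset (Finset (Fin n)))).filter
    fun H => FourGraph H ∧ K5Free H ∧ ∀ S, ¬ InducesX H S) ⟨∅, mem_filter.mpr ⟨mem_univ _, by
      refine ⟨fun e he => absurd he (notMem_empty e), ?_, ?_⟩
      · rintro ⟨S, hS, hsub⟩
        have hne : (S.powersetCard 4).Nonempty := powersetCard_nonempty.mpr (by omega)
        obtain ⟨T, hT⟩ := hne
        exact notMem_empty T (hsub hT)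
      · rintro S ⟨f, -, hf⟩
        exact notMem_empty _ ((hf {0, 1, 2, 3} (by decide)).mpr (by decide))⟩⟩ card
  rw [he]
  obtain ⟨-, h4, hK, hX⟩ := mem_filter.mp hH
  have h := upper_main H h4 hK
  have hc : copies H = 0 := by
    unfold copies
    rw [filter_eq_empty_iff.mpr fun S _ => hX S, card_empty]
  rw [hc, Fintype.card_fin] at h
  omega

theorem lim_ratio : Tendsto (fun n : ℕ => (n : ℝ) ^ 4 / (n.choose 4 : ℝ)) atTop (𝓝 24) := by
  have h := isEquivalent_choose 4
  have h2 := h.symm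
  have h3 : Tendsto (fun n : ℕ => ((n : ℝ) ^ 4 / (Nat.factorial 4 : ℝ)) / (n.choose 4 : ℝ)) atTop (𝓝 1) := by
    rw [Asymptotics.isEquivalent_iff_tendsto_one] at h2
    · exact h2
    · filter_upwards [eventually_ge_atTop 4] with n hn
      have : 0 < n.choose 4 := Nat.choose_pos hn
      positivity
  have h4 := h3.const_mul 24
  simp only [mul_one] at h4
  refine h4.congr fun n => ?_
  have : ((Nat.factorial 4 : ℕ) : ℝ) = 24 := by norm_num [Nat.factorial]
  rw [this]
  ring

/-- **the density** -/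
theorem density : Tendsto (fun n : ℕ => (exX n : ℝ) / (n.choose 4 : ℝ)) atTop (𝓝 (11 / 16)) := by
  have hlim : Tendsto (fun n : ℕ => (11 / 384 + 818 / 384 * (1 / (n : ℝ))) * ((n : ℝ) ^ 4 / (n.choose 4 : ℝ))) atTop (𝓝 (11 / 16)) := by
    have h1 : Tendsto (fun n : ℕ => (11 / 384 + 818 / 384 * (1 / (n : ℝ)))) atTop (𝓝 (11 / 384 + 818 / 384 * 0)) :=
      tendsto_const_nhds.add (tendsto_one_div_atTop_nhds_zero_nat.const_mul _)
    have h2 := h1.mul lim_ratio
    have e : (11 / 384 + 818 / 384 * 0 : ℝ) * 24 = 11 / 16 := by norm_num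
    rwa [e] at h2
  refine tendsto_of_tendsto_of_tendsto_of_le_of_le' tendsto_const_nhds hlim ?_ ?_
  · filter_upwards [eventually_ge_atTop 4] with n hn
    have hpos : (0 : ℝ) < (n.choose 4 : ℝ) := by exact_mod_cast Nat.choose_pos hn
    rw [le_div_iff₀ hpos]
    have h : ((11 * n.choose 4 : ℕ) : ℝ) ≤ ((16 * exX n : ℕ) : ℝ) := by exact_mod_cast lower n
    push_cast at h
    linarith
  · filter_upwards [eventually_ge_atTop 4] with n hn
    have hpos : (0 : ℝ) < (n.choose 4 : ℝ) := by exact_mod_cast Nat.choose_pos hn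
    have hn0 : (0 : ℝ) < (n : ℝ) := by exact_mod_cast (by omega : 0 < n)
    rw [← mul_div_assoc]
    refine div_le_div_of_nonneg_right ?_ hpos.le
    have h : ((384 * (n ^ 2 * exX n) : ℕ) : ℝ) ≤ ((11 * n ^ 6 + 818 * n ^ 5 : ℕ) : ℝ) := by exact_mod_cast exX_le n
    push_cast at h
    have h2 : (n : ℝ) ^ 2 * (384 * (exX n : ℝ)) ≤ (n : ℝ) ^ 2 * (11 * (n : ℝ) ^ 4 + 818 * (n : ℝ) ^ 3) := by nlinarith
    have h3 := le_of_mul_le_mul_left h2 (by positivity)
    have e : (11 / 384 + 818 / 384 * (1 / (n : ℝ))) * (n : ℝ) ^ 4 = (11 * (n : ℝ) ^ 4 + 818 * (n : ℝ) ^ 3) / 384 := by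
      field_simp
    rw [e, le_div_iff₀ (by norm_num)]
    linarith

end Pool.Agent.H35.Y
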